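import Pool.Agent.W93.AU13
import Pool.Agent.TH872.Transfer
import Pool.Agent.TH872.An3

set_option autoImplicit false

/-!
# Correlations with a shift from a random family of integers: mirror-dependent digits, palindromes
and rearrangements of digits
-/

namespace Pool.Agent.Y844.DS
open Finset
open Pool.Agent.W93.AU
open Pool.Agent.W93.LM (Nice)
open Pool.Agent.H373R2.T7 (exI)
open Pool.Agent.TH872.Mir
open Pool.Agent.TH872.An

/-- the bad integers: some correlation is not small -/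
def BadC (f : ℕ → ℂ) (b B T U k : ℕ) (bad : ℤ → Prop) : Prop :=
  ∃ (L : ℕ) (g : ℕ → ℕ → ℂ), (L : ℝ) ≤ (k : ℝ) ^ T ∧
    (∀ l < L, ∀ n, 1 ≤ n → n ≤ B * b ^ k → ‖g l n‖ ≤ (k : ℝ) ^ T) ∧
    ∀ y : ℤ, bad y → ∃ l < L, ∃ N : ℕ, N ≤ B * b ^ k ∧
      ((b ^ k : ℕ) : ℝ) / (k : ℝ) ^ U < ‖∑ n ∈ Icc 1 N, g l n * exI f ((n : ℤ) + y)‖

/-- correlations for an arbitrary law, in terms of the number of digits -/
theorem cor_law (b F : ℕ) (hb : 2 ≤ b) (hF : 1 ≤ F) (f : ℕ → ℂ) (hf : Nice f) (e B T U : ℕ) :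
    ∃ V : ℕ, ∀ D : ℕ, ∃ k₀ : ℕ, ∀ k : ℕ, k₀ ≤ k →
    ∀ (ι : Type) (Ω : Finset ι) (p : ι → ℝ) (Y : ι → ℤ), Law b F D V (k + e) Ω p Y →
    (∀ ω ∈ Ω, |Y ω| + B * (b : ℤ) ^ k < (b : ℤ) ^ (k + e)) →
    ∀ bad : ℤ → Prop, BadC f b B T U k bad →
    ∀ E : ι → Prop, [DecidablePred E] → (∀ ω ∈ Ω, E ω → bad (Y ω)) →
    ∑ ω ∈ Ω, (if E ω then p ω else 0) ≤ 1 / (k : ℝ) ^ U := by
  refine ⟨4 * (U + 1) + 4 * T + 1 + 6, fun D => ?_⟩
  obtain ⟨K₀, h0⟩ := lmg_prob b F hb hF f hf T (U + 1) D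
  refine ⟨K₀ + b ^ e + 1, fun k hk ι Ω p Y hlaw hY bad hbad E _ hE => ?_⟩
  obtain ⟨L, g, hL, hg, hb1⟩ := hbad
  have hpe : 0 < b ^ e := by positivity
  have hkr : (1 : ℝ) ≤ k := by exact_mod_cast (by omega : 1 ≤ k)
  have hkK : (k : ℝ) ≤ ((k + e : ℕ) : ℝ) := by exact_mod_cast (by omega : k ≤ k + e)
  have hbk : (0 : ℤ) < (b : ℤ) ^ k := by positivity
  have hbe : (b : ℝ) ^ e ≤ ((k + e : ℕ) : ℝ) := by exact_mod_cast (by omega : b ^ e ≤ k + e)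
  rcases Ω.eq_empty_or_nonempty with hΩ | ⟨ω₀, hω₀⟩
  · rw [hΩ, sum_empty]; positivity
  have hBk : B * b ^ k ≤ b ^ (k + e) := by
    have h1 := hY ω₀ hω₀
    have h2 := abs_nonneg (Y ω₀)
    have h3 : (B : ℤ) * (b : ℤ) ^ k ≤ (b : ℤ) ^ (k + e) := by linarith
    exact_mod_cast h3
  have h := h0 (k + e) (by omega) ι Ω p Y hlaw (B * b ^ k) (by
      intro ω hω
      have h1 := hY ω hω
      have h2 := abs_lt.1 (lt_of_le_of_lt (le_add_of_nonneg_right (by positivity)) h1)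
      have h3 := le_abs_self (Y ω)
      push_cast
      constructor
      · linarith [h2.1]
      · linarith) hBk L (hL.trans (pow_le_pow_left₀ (by linarith) hkK T)) g
    (fun l hl n hn hn' => (hg l hl n hn hn').trans (pow_le_pow_left₀ (by linarith) hkK T)) E (by
      intro ω hω hEω
      obtain ⟨l, hl, N, hN, h1⟩ := hb1 (Y ω) (hE ω hω hEω)
      refine ⟨l, hl, N, hN, lt_of_le_of_lt ?_ h1⟩
      have hke : (0 : ℝ) < ((k + e : ℕ) : ℝ) := by linarith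
      rw [div_le_div_iff₀ (pow_pos hke _) (by positivity)]
      push_cast
      rw [pow_add (b : ℝ) k e, pow_succ _ U]
      push_cast at hbe hkK
      have e1 : (k : ℝ) ^ U ≤ ((k : ℝ) + e) ^ U := pow_le_pow_left₀ (by positivity) hkK U
      calc (b : ℝ) ^ k * (b : ℝ) ^ e * (k : ℝ) ^ U = (b : ℝ) ^ k * ((k : ℝ) ^ U * (b : ℝ) ^ e) := by ring
        _ ≤ (b : ℝ) ^ k * (((k : ℝ) + e) ^ U * ((k : ℝ) + e)) := by gcongr)
  refine h.trans ?_
  apply one_div_le_one_div_of_le (by positivity)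
  calc (k : ℝ) ^ U ≤ ((k + e : ℕ) : ℝ) ^ U := pow_le_pow_left₀ (by linarith) hkK U
    _ ≤ ((k + e : ℕ) : ℝ) ^ (U + 1) := pow_le_pow_right₀ (hkr.trans hkK) (by omega)

/-- mirror-dependent digits -/
theorem cor_mir (b B T U : ℕ) (hb : 2 ≤ b) (f : ℕ → ℂ) (hf : Nice f) (κ : ℤ) (hκ : κ ≠ 0) :
    Pool.Agent.TH872.Tr.Rare b B U κ (fun k bad => BadC f b B T U k bad) := by
  intro η hη s hs
  obtain ⟨e, he⟩ : ∃ e, e = B + 3 * κ.natAbs + 1 := ⟨_, rfl⟩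
  obtain ⟨V, hV⟩ := cor_law b (FF0 b κ) hb (FF0_pos b κ hκ) f hf e B T U
  obtain ⟨D, hD⟩ := mir_law b hb η hη κ e s V
  obtain ⟨k₀, h0⟩ := hV D
  refine ⟨k₀ + 1, fun m hm w hw cc hcc bad hbad E _ hE => ?_⟩
  refine h0 (2 * m + s) (by omega) _ (Gs b m) (pw w)
    (fun g => cc + κ * (val b (2 * m + s) g : ℕ)) (hD m (2 * m + s + e) rfl (by omega) w hw cc) ?_ bad hbad E hE
  intro g hg
  have h1 := val_lt b m s (by omega) g hg
  have h2 : ((val b (2 * m + s) g : ℕ) : ℤ) < 2 * (b : ℤ) ^ (2 * m + s) := by exact_mod_cast h1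
  have h3 : |cc + κ * ((val b (2 * m + s) g : ℕ) : ℤ)| ≤ (b : ℤ) ^ (2 * m + s + (B + 3 * κ.natAbs)) := by
    refine (abs_add_le _ _).trans (le_trans ?_ hcc)
    rw [abs_mul, abs_of_nonneg (by positivity : (0 : ℤ) ≤ ((val b (2 * m + s) g : ℕ) : ℤ))]
    have := mul_le_mul_of_nonneg_left h2.le (abs_nonneg κ)
    linarith
  have h4 : (B : ℤ) < (b : ℤ) ^ (B + 3 * κ.natAbs) := by
    have h5 : B < b ^ (B + 3 * κ.natAbs) :=
      lt_of_lt_of_le (Nat.lt_pow_self (by omega)) (Nat.pow_le_pow_right (by omega) (by omega))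
    exact_mod_cast h5
  have hpos : (0 : ℤ) < (b : ℤ) ^ (2 * m + s) := by positivity
  have h6 : (B : ℤ) * (b : ℤ) ^ (2 * m + s) < (b : ℤ) ^ (2 * m + s + (B + 3 * κ.natAbs)) := by
    rw [pow_add (b : ℤ) (2 * m + s), mul_comm ((b : ℤ) ^ (2 * m + s))]
    exact mul_lt_mul_of_pos_right h4 hpos
  have h7 : 2 * (b : ℤ) ^ (2 * m + s + (B + 3 * κ.natAbs)) ≤ (b : ℤ) ^ (2 * m + s + e) := by
    rw [he, show 2 * m + s + (B + 3 * κ.natAbs + 1) = (2 * m + s + (B + 3 * κ.natAbs)) + 1 by ring,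
      pow_succ, mul_comm]
    apply mul_le_mul_of_nonneg_left _ (by positivity)
    exact_mod_cast hb
  linarith

/-- rearrangements of digits -/
theorem cor_an (b B T U : ℕ) (hb : 2 ≤ b) (f : ℕ → ℂ) (hf : Nice f) (κ : ℤ) (hκ : κ ≠ 0) (η : ℝ)
    (hη : 0 < η) : ∃ k₀ : ℕ, ∀ k : ℕ, k₀ ≤ k → ∀ d : Fin k → ℕ, Spread b k η d →
    ∀ c : ℤ, |c| ≤ B * (b : ℤ) ^ k → ∀ bad : ℤ → Prop, BadC f b B T U k bad →
    ∀ E : Equiv.Perm (Fin k) → Prop, [DecidablePred E] → (∀ σ, E σ → bad (c + κ * (V b d σ : ℕ))) →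
    ((univ.filter E).card : ℝ) ≤ k.factorial / (k : ℝ) ^ U := by
  obtain ⟨e, he⟩ : ∃ e, e = B + κ.natAbs + B + 1 := ⟨_, rfl⟩
  obtain ⟨V', hV⟩ := cor_law b (FA b κ) hb (FA_pos b hb κ hκ) f hf e B T U
  obtain ⟨D, K2, hD⟩ := an_law b hb η hη κ e V'
  obtain ⟨k₀, h0⟩ := hV D
  refine ⟨k₀ + K2 + 1, fun k hk d hd c hc bad hbad E _ hE => ?_⟩
  have h := h0 k (by omega) _ univ (fun _ => 1 / (k.factorial : ℝ)) (fun σ => c + κ * (V b d σ : ℕ))
    (hD k (k + e) rfl (by omega) d hd c) (by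
      intro σ _
      have h1 := size b B hb κ k _ (V_lt hd (by omega) σ) c hc
      have h1' : |c + κ * ((V b d σ : ℕ) : ℤ)| < (b : ℤ) ^ (k + (B + κ.natAbs)) := by
        exact_mod_cast h1
      have hpos : (0 : ℤ) < (b : ℤ) ^ k := by positivity
      have h4 : (B : ℤ) < (b : ℤ) ^ (B + κ.natAbs + B) := by
        have h5 : B < b ^ (B + κ.natAbs + B) :=
          lt_of_lt_of_le (Nat.lt_pow_self (by omega)) (Nat.pow_le_pow_right (by omega) (by omega))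
        exact_mod_cast h5
      have h6 : (B : ℤ) * (b : ℤ) ^ k < (b : ℤ) ^ (k + (B + κ.natAbs + B)) := by
        rw [pow_add (b : ℤ) k, mul_comm ((b : ℤ) ^ k)]
        exact mul_lt_mul_of_pos_right h4 hpos
      have h8 : (b : ℤ) ^ (k + (B + κ.natAbs)) ≤ (b : ℤ) ^ (k + (B + κ.natAbs + B)) := by
        exact_mod_cast Nat.pow_le_pow_right (by omega : 0 < b) (by omega)
      have h7 : 2 * (b : ℤ) ^ (k + (B + κ.natAbs + B)) ≤ (b : ℤ) ^ (k + e) := by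
        rw [he, show k + (B + κ.natAbs + B + 1) = (k + (B + κ.natAbs + B)) + 1 by ring,
          pow_succ, mul_comm]
        apply mul_le_mul_of_nonneg_left _ (by positivity)
        exact_mod_cast hb
      linarith) bad hbad E (fun σ _ hσ => hE σ hσ)
  refine (count_perm k E _ h).trans (le_of_eq ?_)
  rw [mul_one_div]

end Pool.Agent.Y844.DS
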