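import Pool.Agent.Y844.DS.Cor

set_option autoImplicit false

/-!
# Correlations along linear forms
-/

namespace Pool.Agent.Y844.DS
open Finset
open Pool.Agent.H373R2.T7 (exI)

/-- sums over the multiples of `a` -/
lemma dil (f : ℤ → ℂ) (g : ℕ → ℂ) (a x : ℕ) (ha : 1 ≤ a) :
    ∑ m ∈ Icc 1 (a * x), (if a ∣ m then g (m / a) else 0) * f m = ∑ n ∈ Icc 1 x, g n * f (a * n) := by
  classical
  symm
  rw [← sum_filter_add_sum_filter_not (Icc 1 (a * x)) (fun m => a ∣ m)]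
  have h0 : ∑ m ∈ (Icc 1 (a * x)).filter (fun m => ¬ a ∣ m), (if a ∣ m then g (m / a) else 0) * f m = 0 := by
    apply sum_eq_zero
    intro m hm
    rw [mem_filter] at hm
    rw [if_neg hm.2, zero_mul]
  rw [h0, add_zero]
  apply sum_bij (fun n _ => a * n)
  · intro n hn
    rw [mem_Icc] at hn
    rw [mem_filter, mem_Icc]
    exact ⟨⟨Nat.mul_pos (by omega) (by omega), Nat.mul_le_mul_left _ hn.2⟩, dvd_mul_right _ _⟩
  · intro n _ n' _ h
    exact Nat.eq_of_mul_eq_mul_left (by omega) h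
  · intro m hm
    rw [mem_filter, mem_Icc] at hm
    obtain ⟨⟨h1, h2⟩, n, rfl⟩ := hm
    refine ⟨n, mem_Icc.2 ⟨?_, Nat.le_of_mul_le_mul_left h2 (by omega)⟩, rfl⟩
    by_contra hcon
    have : n = 0 := by omega
    subst this
    omega
  · intro n _
    rw [if_pos (dvd_mul_right _ _), Nat.mul_div_cancel_left _ (by omega)]
    push_cast
    rfl

/-- correlations along linear forms are covered by the notion `BadC` -/
theorem badC_of (f : ℕ → ℂ) (b B T U k L : ℕ) (hL : (L : ℝ) ≤ (k : ℝ) ^ T) (g : Fin L → ℕ → ℂ)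
    (hg : ∀ l n, n ≤ B * b ^ k → ‖g l n‖ ≤ (k : ℝ) ^ T) (a : Fin L → ℕ) (ha : ∀ l, 1 ≤ a l) :
    BadC f b B T U k (fun y => ¬ ∀ l, ∀ x : ℕ, a l * x ≤ B * b ^ k →
      ‖∑ n ∈ Icc 1 x, g l n * exI f ((a l : ℤ) * n + y)‖ ≤ ((b ^ k : ℕ) : ℝ) / (k : ℝ) ^ U) := by
  classical
  refine ⟨L, fun l m => if h : l < L then (if a ⟨l, h⟩ ∣ m then g ⟨l, h⟩ (m / a ⟨l, h⟩) else 0) else 0,
    hL, ?_, ?_⟩
  · intro l hl n hn hn'
    simp only [hl, dif_pos]
    split_ifs with h1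
    · exact hg _ _ ((Nat.div_le_self _ _).trans hn')
    · rw [norm_zero]; positivity
  · intro y hy
    push Not at hy
    obtain ⟨l, x, hx, h1⟩ := hy
    refine ⟨l, l.2, a l * x, hx, lt_of_lt_of_eq h1 ?_⟩
    simp only [l.2, dif_pos]
    rw [← dil (fun m => exI f (m + y)) (g l) (a l) x (ha l)]

end Pool.Agent.Y844.DS
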