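import Pool.Agent.Y844.DS.Mang

set_option autoImplicit false

/-!
# Products of consecutive values
-/

namespace Pool.Agent.Y844.DS
open Finset
open Pool.Agent.H373R2.T7 (exI liR)

/-- two families of bad integers -/
theorem badC_or (f : ℕ → ℂ) (b B T U k : ℕ) (hk : 2 ≤ k) (bad1 bad2 : ℤ → Prop) (h1 : BadC f b B T U k bad1)
    (h2 : BadC f b B T U k bad2) : BadC f b B (T + 1) U k (fun y => bad1 y ∨ bad2 y) := by
  classical
  obtain ⟨L1, g1, hL1, hg1, hb1⟩ := h1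
  obtain ⟨L2, g2, hL2, hg2, hb2⟩ := h2
  have hk2 : (2 : ℝ) ≤ k := by exact_mod_cast hk
  have hkT : (0 : ℝ) < (k : ℝ) ^ T := by positivity
  have hmono : (k : ℝ) ^ T ≤ (k : ℝ) ^ (T + 1) := pow_le_pow_right₀ (by linarith) (by omega)
  refine ⟨L1 + L2, fun l n => if l < L1 then g1 l n else g2 (l - L1) n, ?_, ?_, ?_⟩
  · push_cast
    rw [pow_succ]
    nlinarith
  · intro l hl n hn hn'
    by_cases h : l < L1
    · simp only [h, if_true]
      exact (hg1 l h n hn hn').trans hmono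
    · simp only [h, if_false]
      exact (hg2 (l - L1) (by omega) n hn hn').trans hmono
  · intro y hy
    rcases hy with hy | hy
    · obtain ⟨l, hl, N, hN, h3⟩ := hb1 y hy
      refine ⟨l, by omega, N, hN, ?_⟩
      simp only [hl, if_true]
      exact h3
    · obtain ⟨l, hl, N, hN, h3⟩ := hb2 y hy
      refine ⟨L1 + l, by omega, N, hN, ?_⟩
      have h4 : ¬ L1 + l < L1 := by omega
      simp only [h4, if_false, Nat.add_sub_cancel_left]
      exact h3

/-- fewer bad integers, a weaker bound for the number of the weights, a weaker estimate -/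
theorem badC_mono (f : ℕ → ℂ) (b B T T' U U' k : ℕ) (hk : 1 ≤ k) (hT : T ≤ T') (hU : U ≤ U') (bad bad' : ℤ → Prop)
    (h : BadC f b B T U k bad) (hb : ∀ y, bad' y → bad y) : BadC f b B T' U' k bad' := by
  obtain ⟨L1, g1, hL1, hg1, hb1⟩ := h
  have hk1 : (1 : ℝ) ≤ k := by exact_mod_cast hk
  have hmono : (k : ℝ) ^ T ≤ (k : ℝ) ^ T' := pow_le_pow_right₀ hk1 hT
  refine ⟨L1, g1, hL1.trans hmono, fun l hl n hn hn' => (hg1 l hl n hn hn').trans hmono, fun y hy => ?_⟩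
  obtain ⟨l, hl, N, hN, h3⟩ := hb1 y (hb y hy)
  refine ⟨l, hl, N, hN, lt_of_le_of_lt ?_ h3⟩
  have h0 : (0 : ℝ) ≤ ((b ^ k : ℕ) : ℝ) := Nat.cast_nonneg _
  exact div_le_div_of_nonneg_left h0 (by positivity) (pow_le_pow_right₀ hk1 hU)

/-- the product of `m` consecutive values of the Liouville function -/
noncomputable def prodL (m n : ℕ) : ℝ := ∏ j ∈ range m, (-1 : ℝ) ^ ArithmeticFunction.cardFactors (n + j)

lemma prodL_sq (m n : ℕ) : prodL m n = 1 ∨ prodL m n = -1 := by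
  unfold prodL
  induction m with
  | zero => left; simp
  | succ m ih =>
    rw [prod_range_succ]
    rcases neg_one_pow_eq_or ℝ (ArithmeticFunction.cardFactors (n + m)) with h | h <;> rw [h] <;>
      rcases ih with h' | h' <;> rw [h'] <;> norm_num

lemma prodL_mul (m n : ℕ) (hm : 1 ≤ m) : prodL m n * prodL m (n + 1) =
    (-1 : ℝ) ^ ArithmeticFunction.cardFactors n * (-1 : ℝ) ^ ArithmeticFunction.cardFactors (n + m) := by
  obtain ⟨r, rfl⟩ : ∃ r, m = r + 1 := ⟨m - 1, by omega⟩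
  have h1 : prodL (r + 1) n = (-1 : ℝ) ^ ArithmeticFunction.cardFactors n *
      ∏ j ∈ range r, (-1 : ℝ) ^ ArithmeticFunction.cardFactors (n + 1 + j) := by
    unfold prodL
    rw [prod_range_succ']
    rw [mul_comm]
    congr 1
    apply prod_congr rfl
    intro j _
    rw [show n + (j + 1) = n + 1 + j by ring]
  have h2 : prodL (r + 1) (n + 1) = (∏ j ∈ range r, (-1 : ℝ) ^ ArithmeticFunction.cardFactors (n + 1 + j)) *
      (-1 : ℝ) ^ ArithmeticFunction.cardFactors (n + (r + 1)) := by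
    unfold prodL
    rw [prod_range_succ, show n + 1 + r = n + (r + 1) by ring]
  obtain ⟨P, hP⟩ : ∃ P, P = ∏ j ∈ range r, (-1 : ℝ) ^ ArithmeticFunction.cardFactors (n + 1 + j) := ⟨_, rfl⟩
  have h3 : P * P = 1 := by
    have h4 := prodL_sq r (n + 1)
    have h5 : prodL r (n + 1) = P := by rw [hP]; rfl
    rw [h5] at h4
    rcases h4 with h | h <;> rw [h] <;> norm_num
  rw [h1, h2, ← hP]
  linear_combination (-1 : ℝ) ^ ArithmeticFunction.cardFactors n *
      (-1 : ℝ) ^ ArithmeticFunction.cardFactors (n + (r + 1)) * h3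

lemma exI_pos (m : ℕ) (hm : 1 ≤ m) : exI liR (m : ℤ) = (((-1 : ℝ) ^ ArithmeticFunction.cardFactors m : ℝ) : ℂ) := by
  unfold exI liR
  rw [if_pos (by exact_mod_cast hm), Int.toNat_natCast]
  push_cast
  rfl

/-- the sum of the products of `m` consecutive values over an interval -/
lemma sum_half (m : ℕ) (hm : 1 ≤ m) (M δ : ℝ) (K : ℕ) (hδ : 1 ≤ δ)
    (h : ∀ x : ℕ, x ≤ K → ‖∑ n ∈ Icc 1 x, exI liR (n : ℤ) * exI liR ((n : ℤ) + (m : ℤ))‖ ≤ δ) (hM : 2 * δ ≤ M) :
    ∀ Y X : ℕ, Y ≤ X → X ≤ K → |∑ n ∈ Ioc Y X, prodL m n| ≤ ((X : ℝ) - Y) / 2 + M := by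
  classical
  intro Y X hYX hXK
  have hcor : ∀ x : ℕ, x ≤ K → |∑ n ∈ Icc 1 x, prodL m n * prodL m (n + 1)| ≤ δ := by
    intro x hx
    have h1 := h x hx
    have h2 : ∑ n ∈ Icc 1 x, exI liR (n : ℤ) * exI liR ((n : ℤ) + (m : ℤ)) =
        ((∑ n ∈ Icc 1 x, prodL m n * prodL m (n + 1) : ℝ) : ℂ) := by
      push_cast
      apply sum_congr rfl
      intro n hn
      rw [mem_Icc] at hn
      rw [← Complex.ofReal_mul, prodL_mul m n hm, exI_pos n hn.1]
      have h3 : (n : ℤ) + (m : ℤ) = ((n + m : ℕ) : ℤ) := by push_cast; rfl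
      rw [h3, exI_pos (n + m) (by omega)]
      push_cast
      rfl
    rw [h2, Complex.norm_real, Real.norm_eq_abs] at h1
    exact h1
  -- the sum over the interval
  have hint : ∑ n ∈ Ioc Y X, prodL m n * prodL m (n + 1) ≤ 2 * δ := by
    have h1 := abs_le.1 (hcor X hXK)
    have h2 := abs_le.1 (hcor Y (hYX.trans hXK))
    have h3 : ∑ n ∈ Icc 1 X, prodL m n * prodL m (n + 1) = ∑ n ∈ Icc 1 Y, prodL m n * prodL m (n + 1) +
        ∑ n ∈ Ioc Y X, prodL m n * prodL m (n + 1) := by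
      rw [← sum_union]
      · congr 1
        ext n
        simp only [mem_union, mem_Icc, mem_Ioc]
        omega
      · rw [disjoint_left]
        intro n hn hn'
        rw [mem_Icc] at hn
        rw [mem_Ioc] at hn'
        omega
    linarith [h1.2, h2.1]
  have hshift : ∑ n ∈ Ioc Y X, prodL m (n + 1) = ∑ n ∈ Ioc Y X, prodL m n + prodL m (X + 1) - prodL m (Y + 1) := by
    have h1 : ∀ d : ℕ, ∑ n ∈ Ioc Y (Y + d), prodL m (n + 1) = ∑ n ∈ Ioc Y (Y + d), prodL m n + prodL m (Y + d + 1) -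
        prodL m (Y + 1) := by
      intro d
      induction d with
      | zero => simp
      | succ d ih =>
        rw [show Y + (d + 1) = (Y + d) + 1 by ring, sum_Ioc_succ_top (by omega), sum_Ioc_succ_top (by omega), ih]
        ring
    obtain ⟨d, rfl⟩ : ∃ d, X = Y + d := ⟨X - Y, by omega⟩
    exact h1 d
  have habs : |∑ n ∈ Ioc Y X, (prodL m n + prodL m (n + 1))| ≤ ∑ n ∈ Ioc Y X, (1 + prodL m n * prodL m (n + 1)) := by
    refine (abs_sum_le_sum_abs _ _).trans (sum_le_sum fun n _ => ?_)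
    rcases prodL_sq m n with h1 | h1 <;> rcases prodL_sq m (n + 1) with h2 | h2 <;> rw [h1, h2] <;> norm_num
  rw [sum_add_distrib, sum_add_distrib, hshift, sum_const, Nat.card_Ioc, nsmul_eq_mul, mul_one] at habs
  have hb1 : |prodL m (X + 1) - prodL m (Y + 1)| ≤ 2 := by
    rcases prodL_sq m (X + 1) with h1 | h1 <;> rcases prodL_sq m (Y + 1) with h2 | h2 <;> rw [h1, h2] <;> norm_num
  have hXY : ((X - Y : ℕ) : ℝ) = (X : ℝ) - Y := by rw [Nat.cast_sub hYX]
  rw [hXY] at habs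
  obtain ⟨S, hS⟩ : ∃ S, S = ∑ n ∈ Ioc Y X, prodL m n := ⟨_, rfl⟩
  rw [← hS] at habs ⊢
  rw [abs_le] at habs hb1 ⊢
  constructor
  · linarith [habs.1, hb1.1, hb1.2]
  · linarith [habs.2, hb1.1, hb1.2]

/-- lengths for which the sums of the products of consecutive values are not small -/
theorem badC_len (b B U : ℕ) (hb : 2 ≤ b) : ∃ k₀ : ℕ, ∀ k : ℕ, k₀ ≤ k →
    BadC liR b B 0 (U + 1) k (fun y => 1 ≤ y ∧ ¬ ∀ Y X : ℕ, Y ≤ X → X ≤ B * b ^ k →
      |∑ n ∈ Ioc Y X, prodL y.toNat n| ≤ ((X : ℝ) - Y) / 2 + ((b ^ k : ℕ) : ℝ) / (k : ℝ) ^ U) := by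
  classical
  have h1 : Filter.Tendsto (fun k : ℕ => ((k : ℝ) ^ (U + 1)) / (b : ℝ) ^ k) Filter.atTop (nhds 0) := by
    apply tendsto_pow_const_div_const_pow_of_one_lt
    exact_mod_cast (by omega : 1 < b)
  have h2 : ∀ᶠ k : ℕ in Filter.atTop, ((k : ℝ) ^ (U + 1)) / (b : ℝ) ^ k < 1 := h1.eventually_lt_const one_pos
  obtain ⟨k1, hk1⟩ := Filter.eventually_atTop.1 h2
  refine ⟨k1 + 2, fun k hk => ⟨1, fun _ n => exI liR (n : ℤ), ?_, ?_, ?_⟩⟩
  · simp
  · intro l _ n hn _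
    show ‖exI liR (n : ℤ)‖ ≤ (k : ℝ) ^ 0
    rw [exI_pos n hn, Complex.norm_real, Real.norm_eq_abs, abs_pow, abs_neg, abs_one, one_pow, pow_zero]
  · intro y hy
    obtain ⟨hy1, hy2⟩ := hy
    obtain ⟨m, rfl⟩ : ∃ m : ℕ, y = m := ⟨y.toNat, (Int.toNat_of_nonneg (by omega)).symm⟩
    rw [Int.toNat_natCast] at hy2
    by_contra hcon
    push Not at hcon
    apply hy2
    have hbk : (0 : ℝ) < (b : ℝ) ^ k := by
      have : (0 : ℝ) < b := by exact_mod_cast (by omega : 0 < b)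
      positivity
    have hkr : (2 : ℝ) ≤ k := by exact_mod_cast (by omega : 2 ≤ k)
    have hk0 : (0 : ℝ) < (k : ℝ) ^ (U + 1) := by positivity
    have h3 := hk1 k (by omega)
    rw [div_lt_one hbk] at h3
    apply sum_half m (by omega) (((b ^ k : ℕ) : ℝ) / (k : ℝ) ^ U) (((b ^ k : ℕ) : ℝ) / (k : ℝ) ^ (U + 1)) (B * b ^ k)
    · push_cast
      rw [le_div_iff₀ hk0]
      linarith
    · intro x hx
      exact hcon 0 (by omega) x hx
    · push_cast
      rw [← mul_div_assoc, div_le_div_iff₀ hk0 (by positivity), pow_succ]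
      have h4 : (0 : ℝ) < (b : ℝ) ^ k * (k : ℝ) ^ U := by positivity
      nlinarith

end Pool.Agent.Y844.DS
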