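import Pool.Agent.Y844.DS.Dil

set_option autoImplicit false

/-!
# Correlations with von Mangoldt weights
-/

namespace Pool.Agent.Y844.DS
open Finset

/-- the von Mangoldt function at the values of linear forms with coefficients of polynomial size -/
lemma mang_bound (b B : ℕ) (hb : 2 ≤ b) : ∃ k₁ : ℕ, ∀ k : ℕ, k₁ ≤ k → ∀ a h n : ℕ, a ≤ b ^ (B * k) →
    h ≤ b ^ (B * k) → n ≤ B * b ^ k → |ArithmeticFunction.vonMangoldt (a * n + h)| ≤ (k : ℝ) ^ 2 := by
  obtain ⟨k1, hk1⟩ := exists_nat_ge ((2 * B + 2 : ℕ) * Real.log b : ℝ)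
  refine ⟨k1 + B + 2, fun k hk a h n ha hh hn => ?_⟩
  have hkr : (1 : ℝ) ≤ k := by exact_mod_cast (by omega : 1 ≤ k)
  have hlogb : 0 ≤ Real.log b := Real.log_natCast_nonneg b
  rw [abs_of_nonneg ArithmeticFunction.vonMangoldt_nonneg]
  refine ArithmeticFunction.vonMangoldt_le_log.trans ?_
  have e1 : a * n + h ≤ b ^ ((2 * B + 2) * k) := by
    have q2 : B ≤ b ^ k := le_trans (by omega : B ≤ k) (Nat.lt_pow_self (by omega)).le
    have q3 : B + 1 ≤ b ^ k := le_trans (by omega : B + 1 ≤ k) (Nat.lt_pow_self (by omega)).le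
    have q4 : 1 ≤ b ^ k := Nat.one_le_pow _ _ (by omega)
    calc a * n + h ≤ b ^ (B * k) * (B * b ^ k) + b ^ (B * k) := by
          apply add_le_add (Nat.mul_le_mul ha hn) hh
      _ ≤ b ^ (B * k) * (B * b ^ k) + b ^ (B * k) * b ^ k := by
          apply add_le_add le_rfl (Nat.le_mul_of_pos_right _ q4)
      _ = b ^ (B * k) * ((B + 1) * b ^ k) := by ring
      _ ≤ b ^ (B * k) * (b ^ k * b ^ k) := by
          apply Nat.mul_le_mul_left _ (Nat.mul_le_mul_right _ q3)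
      _ = b ^ ((B + 2) * k) := by rw [← pow_add, ← pow_add]; congr 1; ring
      _ ≤ _ := Nat.pow_le_pow_right (by omega) (Nat.mul_le_mul_right _ (by omega))
  rcases Nat.eq_zero_or_pos (a * n + h) with h0 | h0
  · rw [h0]
    simp only [Nat.cast_zero, Real.log_zero]
    positivity
  · have e2 : Real.log ((a * n + h : ℕ) : ℝ) ≤ Real.log ((b ^ ((2 * B + 2) * k) : ℕ) : ℝ) :=
      Real.log_le_log (by exact_mod_cast h0) (by exact_mod_cast e1)
    refine e2.trans ?_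
    rw [Nat.cast_pow, Real.log_pow]
    have e3 : ((2 * B + 2 : ℕ) : ℝ) * Real.log b ≤ k := hk1.trans (by exact_mod_cast (by omega : k1 ≤ k))
    calc (((2 * B + 2) * k : ℕ) : ℝ) * Real.log b = (((2 * B + 2 : ℕ) : ℝ) * Real.log b) * k := by push_cast; ring
      _ ≤ k * k := mul_le_mul_of_nonneg_right e3 (by linarith)
      _ = _ := by ring

/-- the product of a bounded weight and of values of the von Mangoldt function -/
lemma mang_weight (r b B T : ℕ) (hb : 2 ≤ b) : ∃ k₁ : ℕ, ∀ k : ℕ, k₁ ≤ k → ∀ (L : ℕ)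
    (a h : Fin L → Fin r → ℕ) (θ : Fin L → ℕ → ℂ), (∀ l i, a l i ≤ b ^ (B * k) ∧ h l i ≤ b ^ (B * k)) →
    (∀ l n, ‖θ l n‖ ≤ 1) → ∀ l n, n ≤ B * b ^ k →
    ‖θ l n * ∏ i, (ArithmeticFunction.vonMangoldt (a l i * n + h l i) : ℂ)‖ ≤ (k : ℝ) ^ (T + 2 * r) := by
  obtain ⟨k₁, h1⟩ := mang_bound b B hb
  refine ⟨k₁ + 1, fun k hk L a h θ hah hθ l n hn => ?_⟩
  have hkr : (1 : ℝ) ≤ k := by exact_mod_cast (by omega : 1 ≤ k)
  rw [norm_mul, norm_prod]
  have e1 : ∏ i, ‖(ArithmeticFunction.vonMangoldt (a l i * n + h l i) : ℂ)‖ ≤ ∏ _i : Fin r, (k : ℝ) ^ 2 := by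
    apply prod_le_prod (fun _ _ => norm_nonneg _)
    intro i _
    rw [Complex.norm_real, Real.norm_eq_abs]
    exact h1 k (by omega) _ _ _ (hah l i).1 (hah l i).2 hn
  rw [prod_const, card_univ, Fintype.card_fin, ← pow_mul] at e1
  calc _ ≤ 1 * (k : ℝ) ^ (2 * r) := mul_le_mul (hθ l n) e1 (prod_nonneg fun _ _ => norm_nonneg _) zero_le_one
    _ = (k : ℝ) ^ (2 * r) := one_mul _
    _ ≤ _ := pow_le_pow_right₀ hkr (by omega)

end Pool.Agent.Y844.DS
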