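import Pool.Agent.TH890.AutTup2

set_option autoImplicit false

/-!
# The one shift estimate for a law, and prime tuples for vectors of shifts with arbitrary laws
-/

namespace Pool.Agent.Y844.DS
open Finset
open Pool.Agent.W93.AU (Law one_law)
open Pool.Agent.W93.TD
open Pool.Agent.H373R2.T7
open Pool.Agent.TH890 (os_diff os_bad)

/-- one shift estimate at the scale `N` -/
theorem one_scale (b F : ℕ) (hb : 2 ≤ b) (hF : 1 ≤ F) (A W : ℕ) : ∃ V : ℕ, ∀ D : ℕ, ∃ B0 : ℕ, ∀ Ez : ℕ,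
    ∃ N₀ : ℕ, ∀ N : ℕ, N₀ ≤ N → ∀ K : ℕ, N ≤ b ^ K → b ^ K ≤ A * N →
    ∀ z : ℕ, Real.log N ^ B0 ≤ z → (z : ℝ) ≤ Real.log N ^ Ez →
    ∀ (ι : Type) (Ω : Finset ι) (p : ι → ℝ) (Y : ι → ℤ), Law b F D V K Ω p Y → ∑ ω ∈ Ω, p ω = 1 →
    (∀ ω ∈ Ω, -((b ^ K : ℕ) : ℤ) < Y ω ∧ (N : ℤ) + Y ω ≤ ((b ^ K : ℕ) : ℤ)) →
    ∀ Kc : ℝ, 0 < Kc → ∀ G : ℕ → ℝ, (∀ n ∈ Icc 1 N, |G n| ≤ Kc) →
    ∑ ω ∈ Ω, p ω * |∑ n ∈ Icc 1 N, G n * (lamI ((n : ℤ) + Y ω) - lamzI z ((n : ℤ) + Y ω))| ≤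
      Kc * (N / Real.log N ^ W) := by
  refine ⟨2 * (W + 1) + 6, fun D => ?_⟩
  obtain ⟨B, hB⟩ := one_law b F hb hF (W + 1) D
  refine ⟨2 * B, fun Ez => ?_⟩
  obtain ⟨K₀, h0⟩ := hB Ez
  obtain ⟨n1, h1⟩ := ev_L' (2 + Real.log A + A * Real.log b ^ (W + 1))
  refine ⟨n1 + b ^ K₀ + 3, fun N hN K hNK hKN z hz1 hz2 ι Ω p Y hlaw hp1 hY Kc hKc G hG => ?_⟩
  have hbr : (2 : ℝ) ≤ b := by exact_mod_cast hb
  have hlogb : 0 < Real.log b := Real.log_pos (by linarith)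
  have hL := h1 N (by omega)
  have hA1 : 1 ≤ A := by
    by_contra hcon
    have : A = 0 := by omega
    subst this
    have : 0 < b ^ K := by positivity
    omega
  have hAr : (1 : ℝ) ≤ A := by exact_mod_cast hA1
  have hlogA : 0 ≤ Real.log A := Real.log_nonneg hAr
  obtain ⟨L, hLd⟩ : ∃ L, L = Real.log (N : ℝ) := ⟨_, rfl⟩
  rw [← hLd] at hL hz1 hz2 ⊢
  have hx1 : 0 ≤ (A : ℝ) * Real.log b ^ (W + 1) := by positivity
  have hL2 : 2 ≤ L := by linarith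
  have hL0 : 0 < L := by linarith
  have hNr : (1 : ℝ) ≤ N := by exact_mod_cast (by omega : 1 ≤ N)
  have hK₀ : K₀ ≤ K := by
    have h2 : b ^ K₀ ≤ b ^ K := by omega
    exact (Nat.pow_le_pow_iff_right (by omega)).1 h2
  have hlogK : Real.log ((b ^ K : ℕ) : ℝ) = K * Real.log b := by
    push_cast
    rw [Real.log_pow]
  have hlow : L ≤ Real.log ((b ^ K : ℕ) : ℝ) := by
    rw [hLd]
    exact Real.log_le_log (by linarith) (by exact_mod_cast hNK)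
  have hup : Real.log ((b ^ K : ℕ) : ℝ) ≤ 2 * L := by
    have h2 : ((b ^ K : ℕ) : ℝ) ≤ A * N := by exact_mod_cast hKN
    have h3 := Real.log_le_log (by positivity) h2
    rw [Real.log_mul (by positivity) (by positivity), ← hLd] at h3
    linarith
  have hK1 : 0 < K := by
    rcases Nat.eq_zero_or_pos K with h | h
    · subst h
      rw [pow_zero] at hNK
      omega
    · exact h
  have hKr : (0 : ℝ) < K := by exact_mod_cast hK1
  have h3 := h0 K hK₀ z (by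
      refine le_trans ?_ hz1
      rw [pow_mul]
      apply pow_le_pow_left₀ (by linarith)
      nlinarith) (hz2.trans (pow_le_pow_left₀ (by linarith) hlow Ez)) ι Ω p Y hlaw hp1 N hY hNK Kc hKc G hG
  refine h3.trans ?_
  apply mul_le_mul_of_nonneg_left _ hKc.le
  rw [div_le_div_iff₀ (by positivity) (by positivity)]
  have h4 : ((b ^ K : ℕ) : ℝ) ≤ A * N := by exact_mod_cast hKN
  have h5 : L ^ (W + 1) ≤ (K * Real.log b) ^ (W + 1) := by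
    rw [← hlogK]
    exact pow_le_pow_left₀ hL0.le hlow _
  rw [mul_pow] at h5
  have h6 : (A : ℝ) * Real.log b ^ (W + 1) ≤ L := by linarith
  -- `A N L ^ W ≤ N K ^ (W + 1)`
  have h7 : (A : ℝ) * L ^ W ≤ (K : ℝ) ^ (W + 1) := by
    have h8 : Real.log b ^ (W + 1) * ((A : ℝ) * L ^ W) ≤ Real.log b ^ (W + 1) * (K : ℝ) ^ (W + 1) := by
      calc Real.log b ^ (W + 1) * ((A : ℝ) * L ^ W) = ((A : ℝ) * Real.log b ^ (W + 1)) * L ^ W := by ring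
        _ ≤ L * L ^ W := mul_le_mul_of_nonneg_right h6 (by positivity)
        _ = L ^ (W + 1) := by ring
        _ ≤ (K : ℝ) ^ (W + 1) * Real.log b ^ (W + 1) := h5
        _ = _ := by ring
    exact le_of_mul_le_mul_left h8 (by positivity)
  calc ((b ^ K : ℕ) : ℝ) * L ^ W ≤ (A * N) * L ^ W := mul_le_mul_of_nonneg_right h4 (by positivity)
    _ = N * (A * L ^ W) := by ring
    _ ≤ N * (K : ℝ) ^ (W + 1) := mul_le_mul_of_nonneg_left h7 (by linarith)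

open Classical in
/-- the prime tuples conjecture for almost all vectors of independent shifts with arbitrary laws which
satisfy the one shift estimate -/
theorem os_prob (s : ℕ) (hs : 1 ≤ s) (A B0 U : ℕ) (ε : ℝ) (hε : 0 < ε) : ∃ N₀ : ℕ, ∀ N, N₀ ≤ N →
    ∀ (κκ c : Fin s → ℕ), (∀ i, 1 ≤ κκ i) → ∀ (Ω : Fin s → Finset ℕ) (p : Fin s → ℕ → ℝ),
    (∀ i, ∀ v ∈ Ω i, 0 ≤ p i v) → (∀ i, ∑ v ∈ Ω i, p i v = 1) →
    (∀ i, ∀ v ∈ Ω i, p i v ≤ 1 / Real.log N ^ (2 * U + 6 + s + 2)) →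
    (∀ i, ∀ v ∈ Ω i, c i + κκ i * v ≤ A * N) →
    (∀ i, ∀ z : ℕ, Real.log N ^ B0 ≤ z → (z : ℝ) ≤ Real.log N ^ (B0 + U + s + 6) → ∀ Kc : ℝ, 0 < Kc →
      ∀ G : ℕ → ℝ, (∀ n ∈ Icc 1 N, |G n| ≤ Kc) →
      ∑ v ∈ Ω i, p i v * |∑ n ∈ Icc 1 N, G n * (lamI ((n : ℤ) + ((c i + κκ i * v : ℕ) : ℤ)) -
        lamzI z ((n : ℤ) + ((c i + κκ i * v : ℕ) : ℤ)))| ≤ Kc * (N / Real.log N ^ (2 * U + 6 + s + 2))) →
    ∑ m ∈ Fintype.piFinset Ω, (if ¬ HLs ε U N (fun i => c i + κκ i * m i) then ∏ i, p i (m i) else 0) ≤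
      1 / Real.log N ^ U := by
  obtain ⟨E1, hE1⟩ : ∃ E1, E1 = B0 + U + s + 5 := ⟨_, rfl⟩
  obtain ⟨n2, h2⟩ := det3 s A E1 U hs ε hε (by omega)
  obtain ⟨n3, h3⟩ := Vz_inv_small (E1 + 1)
  obtain ⟨n4, h4⟩ := ev_L' (2 + (s : ℝ) * 2 ^ s + Real.log ((A + 1 : ℕ) : ℝ) + (s + s * s + 2))
  refine ⟨n2 + n3 + n4 + 1, fun N hN κκ c hκ Ω p hp0 hp1 hpθ hpA hone => ?_⟩
  have hL := h4 N (by omega)
  obtain ⟨L, hLdef⟩ : ∃ L, L = Real.log (N : ℝ) := ⟨_, rfl⟩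
  have q0 : 0 ≤ Real.log ((A + 1 : ℕ) : ℝ) := Real.log_natCast_nonneg _
  have q1 : 0 ≤ (s : ℝ) * 2 ^ s := by positivity
  have q2 : 0 ≤ ((s : ℝ) + s * s + 2) := by positivity
  rw [← hLdef] at hL
  have hL2 : 2 ≤ L := by linarith
  have hL1 : 1 ≤ L := by linarith
  have hL0 : 0 < L := by linarith
  obtain ⟨z, hz⟩ : ∃ z, z = ⌈L ^ E1⌉₊ := ⟨_, rfl⟩
  have hz1 : L ^ E1 ≤ z := by rw [hz]; exact Nat.le_ceil _
  have hz2 : (z : ℝ) ≤ L ^ (E1 + 1) := by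
    have q1 : (z : ℝ) < L ^ E1 + 1 := by rw [hz]; exact Nat.ceil_lt_add_one (by positivity)
    have q2 : 1 ≤ L ^ E1 := one_le_pow₀ hL1
    rw [pow_succ]
    nlinarith
  have hzn : 1 ≤ z := by
    have : (1 : ℝ) ≤ z := (one_le_pow₀ hL1).trans hz1
    exact_mod_cast this
  have hz3 : L ^ B0 ≤ z := (pow_le_pow_right₀ hL1 (by omega)).trans hz1
  have hz4 : (z : ℝ) ≤ L ^ (B0 + U + s + 6) := by
    rw [show B0 + U + s + 6 = E1 + 1 by omega]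
    exact hz2
  rw [← hLdef] at hpθ
  have hV := h3 N (by omega) z hzn (by rw [← hLdef]; exact hz2)
  have hD := os_diff N A z (2 * U + 6) κκ c Ω p hp0 hp1 hpA (fun i K hK G hG => hone i z
    (by rw [← hLdef]; exact hz3) (by rw [← hLdef]; exact hz4) K hK G hG) (by omega)
    (by rw [← hLdef]; exact hL1) (by rw [← hLdef]; linarith) (by rw [← hLdef]; linarith) hV
  rw [← hLdef] at hD
  have hbad := os_bad s U L N A z ε κκ c hκ Ω p hp0 hp1 (1 / L ^ (2 * U + 6 + s + 2)) (by positivity) hpθ hpA hL1 (by omega)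
    (fun a ha1 ha2 ha3 hd => h2 N (by omega) z (by rw [← hLdef]; exact hz1) (by rw [← hLdef]; exact hz2) a ha1 ha2 ha3
      (by rw [← hLdef]; exact hd)) hD
  rw [← hLdef]
  refine hbad.trans ?_
  have e1 : 1 / L ^ (2 * U + 6 + s + 2) ≤ 1 / L ^ (U + 2) :=
    one_div_le_one_div_of_le (by positivity) (pow_le_pow_right₀ hL1 (by omega))
  calc ((s : ℝ) + s * s) * (1 / L ^ (2 * U + 6 + s + 2)) + 2 / L ^ (U + 2) ≤
      ((s : ℝ) + s * s) * (1 / L ^ (U + 2)) + 2 / L ^ (U + 2) := by gcongr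
    _ = ((s : ℝ) + s * s + 2) / L ^ 2 * (1 / L ^ U) := by
        rw [pow_add]
        field_simp
    _ ≤ 1 * (1 / L ^ U) := by
        apply mul_le_mul_of_nonneg_right _ (by positivity)
        rw [div_le_one (by positivity)]
        nlinarith
    _ = _ := one_mul _

end Pool.Agent.Y844.DS
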