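import Pool.Agent.TH872.Mir5

set_option autoImplicit false

/-!
# Palindromes of all lengths: counting and sums
-/

namespace Pool.Agent.Y844.DS
open Finset
open Pool.Agent.TH872.Mir

/-- `v` is a palindrome in base `b` -/
def IsP (b v : ℕ) : Prop := (Nat.digits b v).reverse = Nat.digits b v

lemma isP_iff (b k v : ℕ) (hb : 2 ≤ b) (hk : 1 ≤ k) (h1 : b ^ (k - 1) ≤ v) (h2 : v < b ^ k) :
    IsP b v ↔ IsPal b k v := by
  have hv0 : v ≠ 0 := by
    have : 0 < b ^ (k - 1) := by positivity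
    omega
  have hlen : (Nat.digits b v).length = k := by
    rw [Nat.length_digits b v (by omega) hv0,
      Nat.log_eq_of_pow_le_of_lt_pow h1 (by rw [show k - 1 + 1 = k by omega]; exact h2)]
    omega
  have hget : ∀ i (hi : i < (Nat.digits b v).length), (Nat.digits b v)[i] = v / b ^ i % b := by
    intro i hi
    rw [← Nat.getD_digits v i hb, List.getD_eq_getElem _ _ hi]
  unfold IsP
  constructor
  · intro h
    refine ⟨h1, h2, fun j hj => ?_⟩
    have e1 := hget j (by omega)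
    have e2 := hget (k - 1 - j) (by omega)
    rw [← e1, ← e2]
    have e3 : (Nat.digits b v).reverse[j]'(by rw [List.length_reverse]; omega) = (Nat.digits b v)[j]'(by omega) :=
      List.getElem_of_eq h _
    rw [← e3, List.getElem_reverse]
    congr 1
    omega
  · intro h
    apply List.ext_getElem (by rw [List.length_reverse])
    intro i hi1 hi2
    rw [List.getElem_reverse, hget, hget]
    have := h.2.2 i (by omega)
    rw [this]
    congr 3
    omega

open Classical in
/-- the palindromes below `b ^ k` -/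
noncomputable def PB (b k : ℕ) : Finset ℕ := (range (b ^ k)).filter (IsP b)

lemma mem_pals (b k v : ℕ) (hb : 2 ≤ b) (hk : 1 ≤ k) : v ∈ Pals b k ↔ v ∈ PB b k ∧ v ∉ PB b (k - 1) := by
  classical
  unfold Pals PB
  rw [mem_filter, mem_filter, mem_filter, mem_range, mem_range]
  constructor
  · rintro ⟨h1, h2⟩
    exact ⟨⟨h1, (isP_iff b k v hb hk h2.1 h1).2 h2⟩, fun h => by have := h2.1; omega⟩
  · rintro ⟨⟨h1, h2⟩, h3⟩
    have h4 : b ^ (k - 1) ≤ v := by
      by_contra hcon
      exact h3 ⟨by omega, h2⟩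
    exact ⟨h1, (isP_iff b k v hb hk h4 h1).1 h2⟩

lemma PB_mono (b : ℕ) (hb : 2 ≤ b) {j k : ℕ} (h : j ≤ k) : PB b j ⊆ PB b k := by
  classical
  unfold PB
  intro v hv
  rw [mem_filter, mem_range] at hv ⊢
  exact ⟨lt_of_lt_of_le hv.1 (Nat.pow_le_pow_right (by omega) h), hv.2⟩

/-- splitting off the palindromes with the greatest number of digits -/
lemma PB_succ (b k : ℕ) (hb : 2 ≤ b) (φ : ℕ → ℝ) :
    ∑ v ∈ PB b (k + 1), φ v = ∑ v ∈ PB b k, φ v + ∑ v ∈ Pals b (k + 1), φ v := by
  classical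
  have h1 : Pals b (k + 1) = PB b (k + 1) \ PB b k := by
    ext v
    rw [mem_pals b (k + 1) v hb (by omega), mem_sdiff, Nat.add_sub_cancel]
  have h2 := sum_sdiff (f := φ) (PB_mono b hb (Nat.le_succ k))
  rw [h1]
  linarith

lemma card_PB_succ (b k : ℕ) (hb : 2 ≤ b) : (PB b (k + 1)).card = (PB b k).card + (Pals b (k + 1)).card := by
  have h := PB_succ b k hb (fun _ => 1)
  rw [sum_const, sum_const, sum_const, nsmul_eq_mul, nsmul_eq_mul, nsmul_eq_mul, mul_one, mul_one, mul_one] at h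
  exact_mod_cast h

lemma card_Hs (b m : ℕ) (hm : 1 ≤ m) : (Hs b m).card = (b - 1) * b ^ (m - 1) := by
  obtain ⟨m', rfl⟩ : ∃ m', m = m' + 1 := ⟨m - 1, by omega⟩
  unfold Hs
  rw [Fintype.card_piFinset, Fin.prod_univ_succ]
  simp only [Fin.val_zero, if_true, Nat.card_Ico, Fin.val_succ, Nat.add_eq_zero_iff, one_ne_zero, and_false,
    if_false, card_range, prod_const, card_univ, Fintype.card_fin, Nat.add_sub_cancel]

lemma card_Zs (b s : ℕ) (hs : s ≤ 1) : (Zs b s).card = b ^ s := by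
  unfold Zs
  have h0 : s = 0 ∨ s = 1 := by omega
  rcases h0 with rfl | rfl
  · simp
  · simp

lemma pals_le (b k : ℕ) (hb : 2 ≤ b) : (Pals b k).card ≤ b ^ ((k + 1) / 2) := by
  classical
  rcases Nat.lt_or_ge k 2 with hk | hk
  · have h1 : (Pals b k).card ≤ b ^ k := by
      unfold Pals
      refine (card_filter_le _ _).trans ?_
      rw [card_range]
    refine h1.trans (Nat.pow_le_pow_right (by omega) ?_)
    omega
  · obtain ⟨m, hm⟩ : ∃ m, m = k / 2 := ⟨_, rfl⟩
    obtain ⟨s, hs⟩ : ∃ s, s = k % 2 := ⟨_, rfl⟩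
    have hk2 : k = 2 * m + s := by omega
    have h1 := card_pals_filter_le b m s hb (by omega) (by omega) (fun _ => True)
    simp only [filter_true] at h1
    rw [hk2]
    refine h1.trans ?_
    rw [sum_const, smul_eq_mul, card_Zs b s (by omega), card_Hs b m (by omega)]
    have h3 : (2 * m + s + 1) / 2 = s + (1 + (m - 1)) := by omega
    rw [h3, pow_add, pow_add, pow_one]
    exact Nat.mul_le_mul_left _ (Nat.mul_le_mul_right _ (by omega))

lemma pals_ge (b k : ℕ) (hb : 2 ≤ b) (hk : 2 ≤ k) : b ^ ((k + 1) / 2) ≤ 2 * (Pals b k).card := by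
  obtain ⟨m, hm⟩ : ∃ m, m = k / 2 := ⟨_, rfl⟩
  obtain ⟨s, hs⟩ : ∃ s, s = k % 2 := ⟨_, rfl⟩
  have hk2 : k = 2 * m + s := by omega
  have h1 := card_pals_ge b m s (by omega) (by omega) (by omega)
  rw [card_Hs b m (by omega), card_Zs b s (by omega)] at h1
  rw [hk2]
  have h3 : (2 * m + s + 1) / 2 = (1 + (m - 1)) + s := by omega
  rw [h3, pow_add, pow_add, pow_one]
  calc b * b ^ (m - 1) * b ^ s ≤ (2 * (b - 1)) * b ^ (m - 1) * b ^ s :=
        Nat.mul_le_mul_right _ (Nat.mul_le_mul_right _ (by omega))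
    _ = 2 * ((b - 1) * b ^ (m - 1) * b ^ s) := by ring
    _ ≤ _ := Nat.mul_le_mul_left _ h1

lemma PB_le (b : ℕ) (hb : 2 ≤ b) : ∀ k : ℕ, (PB b k).card ≤ 4 * b ^ ((k + 1) / 2) := by
  classical
  have h01 : ∀ k, k < 2 → (PB b k).card ≤ 4 * b ^ ((k + 1) / 2) := by
    intro k hk
    have h1 : (PB b k).card ≤ b ^ k := by
      unfold PB
      refine (card_filter_le _ _).trans ?_
      rw [card_range]
    refine h1.trans ((Nat.pow_le_pow_right (by omega) (by omega : k ≤ (k + 1) / 2)).trans ?_)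
    omega
  intro k
  induction k using Nat.strong_induction_on with
  | _ k ih =>
    rcases Nat.lt_or_ge k 2 with hk | hk
    · exact h01 k hk
    · obtain ⟨j, rfl⟩ : ∃ j, k = j + 1 + 1 := ⟨k - 2, by omega⟩
      rw [card_PB_succ b (j + 1) hb, card_PB_succ b j hb]
      have h1 := ih j (by omega)
      have h2 := pals_le b (j + 1) hb
      have h3 := pals_le b (j + 1 + 1) hb
      have h4 : b ^ ((j + 1 + 1) / 2) ≤ b ^ ((j + 1 + 1 + 1) / 2) := Nat.pow_le_pow_right (by omega) (by omega)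
      have h5 : b ^ ((j + 1 + 1 + 1) / 2) = b * b ^ ((j + 1) / 2) := by
        rw [← pow_succ']
        congr 1
        omega
      have h6 : 2 * b ^ ((j + 1) / 2) ≤ b * b ^ ((j + 1) / 2) := Nat.mul_le_mul_right _ hb
      omega

open Classical in
/-- sums over the palindromes of one length -/
lemma pals_sum_le (b m s : ℕ) (hb : 2 ≤ b) (hm : 1 ≤ m) (hs : s ≤ 1) (φ : ℕ → ℝ) (hφ : ∀ v, 0 ≤ φ v) (δ : ℝ)
    (hδ : 0 ≤ δ)
    (h : ∀ z < b, ∑ g ∈ Gs b m, pw (w0 b) g * φ (val b (2 * m + s) g + s * z * b ^ m) ≤ δ) :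
    ∑ v ∈ Pals b (2 * m + s), φ v ≤ (Pals b (2 * m + s)).card * δ := by
  have hb0 : 0 < b := by omega
  have hpw : ∀ g, 0 ≤ pw (w0 b) (m := m) g := by
    intro g
    unfold pw
    apply prod_nonneg
    intro i _
    unfold w0
    split_ifs <;> positivity
  obtain ⟨E, hE⟩ : ∃ E : ℕ → ℕ → Prop, ∀ v u, E v u ↔ u = v := ⟨fun v u => u = v, fun _ _ => Iff.rfl⟩
  -- every palindrome is obtained
  have h1 : ∀ v ∈ Pals b (2 * m + s), (1 : ℝ) ≤ ∑ z ∈ Zs b s, (Hs b m).card *
      ∑ g ∈ Gs b m, (if E v (val b (2 * m + s) g + s * z * b ^ m) then pw (w0 b) g else 0) := by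
    intro v hv
    have h2 := card_pals_filter_le b m s hb hm hs (E v)
    have h3 : 1 ≤ ((Pals b (2 * m + s)).filter (E v)).card :=
      card_pos.2 ⟨v, mem_filter.2 ⟨hv, (hE v v).2 rfl⟩⟩
    have h4 : (1 : ℝ) ≤ ∑ z ∈ Zs b s, (((Hs b m).filter (fun x => E v (pval b m s x z))).card : ℝ) := by
      exact_mod_cast h3.trans h2
    refine h4.trans (sum_le_sum fun z _ => ?_)
    exact card_le_prob b m (fun g => E v (val b (2 * m + s) g + s * z * b ^ m))
  have h5 : ∑ v ∈ Pals b (2 * m + s), φ v ≤ ∑ z ∈ Zs b s, (Hs b m).card *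
      ∑ g ∈ Gs b m, pw (w0 b) g * φ (val b (2 * m + s) g + s * z * b ^ m) := by
    calc ∑ v ∈ Pals b (2 * m + s), φ v ≤ ∑ v ∈ Pals b (2 * m + s), φ v * ∑ z ∈ Zs b s, (Hs b m).card *
          ∑ g ∈ Gs b m, (if E v (val b (2 * m + s) g + s * z * b ^ m) then pw (w0 b) g else 0) :=
          sum_le_sum fun v hv => le_mul_of_one_le_right (hφ v) (h1 v hv)
      _ = ∑ z ∈ Zs b s, (Hs b m).card * ∑ g ∈ Gs b m, ∑ v ∈ Pals b (2 * m + s),
          φ v * (if E v (val b (2 * m + s) g + s * z * b ^ m) then pw (w0 b) g else 0) := by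
          simp only [mul_sum]
          rw [sum_comm]
          apply sum_congr rfl
          intro z _
          rw [sum_comm]
          apply sum_congr rfl
          intro g _
          apply sum_congr rfl
          intro v _
          ring
      _ ≤ _ := by
          apply sum_le_sum
          intro z _
          apply mul_le_mul_of_nonneg_left _ (Nat.cast_nonneg _)
          apply sum_le_sum
          intro g _
          by_cases hg : val b (2 * m + s) g + s * z * b ^ m ∈ Pals b (2 * m + s)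
          · rw [sum_eq_single_of_mem _ hg]
            · rw [if_pos ((hE _ _).2 rfl), mul_comm]
            · intro v _ hne
              rw [if_neg (fun h => hne ((hE _ _).1 h).symm), mul_zero]
          · rw [sum_eq_zero]
            · exact mul_nonneg (hpw g) (hφ _)
            · intro v hv
              rw [if_neg (fun h => hg (by rw [(hE _ _).1 h]; exact hv)), mul_zero]
  refine h5.trans ?_
  have h6 : ∑ z ∈ Zs b s, ((Hs b m).card : ℝ) *
      ∑ g ∈ Gs b m, pw (w0 b) g * φ (val b (2 * m + s) g + s * z * b ^ m) ≤ ∑ z ∈ Zs b s, ((Hs b m).card : ℝ) * δ :=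
    sum_le_sum fun z hz => mul_le_mul_of_nonneg_left (h z (mem_Zs b s z hb0 hz)) (Nat.cast_nonneg _)
  refine h6.trans ?_
  rw [sum_const, nsmul_eq_mul]
  have h3 : (((Hs b m).card * (Zs b s).card : ℕ) : ℝ) ≤ ((Pals b (2 * m + s)).card : ℝ) := by
    exact_mod_cast card_pals_ge b m s hb0 hm hs
  push_cast at h3
  calc ((Zs b s).card : ℝ) * ((Hs b m).card * δ) = ((Hs b m).card * (Zs b s).card) * δ := by ring
    _ ≤ _ := mul_le_mul_of_nonneg_right h3 hδ

end Pool.Agent.Y844.DS
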