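import Pool.Agent.Y844.DS.Pal1
import Pool.Agent.Y844.DS.One
import Pool.Agent.TH872.Mir8

set_option autoImplicit false

/-!
# The one shift estimate for the palindromes
-/

namespace Pool.Agent.Y844.DS
open Finset
open Pool.Agent.TH872.Mir
open Pool.Agent.H373R2.T7
open Pool.Agent.W93.AU (Law)

/-- the sum which has to be small -/
noncomputable def sh (N z : ℕ) (G : ℕ → ℝ) (y : ℤ) : ℝ :=
  |∑ n ∈ Icc 1 N, G n * (lamI ((n : ℤ) + y) - lamzI z ((n : ℤ) + y))|

lemma sh_nonneg (N z : ℕ) (G : ℕ → ℝ) (y : ℤ) : 0 ≤ sh N z G y := abs_nonneg _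

/-- the trivial bound -/
lemma sh_le (N z A : ℕ) (G : ℕ → ℝ) (Kc : ℝ) (hKc : 0 ≤ Kc) (hG : ∀ n ∈ Icc 1 N, |G n| ≤ Kc) (y : ℤ) (L : ℝ)
    (hN : 1 ≤ N) (hA : (N : ℤ) + y ≤ A * N) (hA1 : 1 ≤ A) (hLA : Real.log ((A * N : ℕ) : ℝ) ≤ 2 * L) (hV : (Vz z)⁻¹ ≤ L)
    (hL : 0 ≤ L) : sh N z G y ≤ 3 * Kc * N * L := by
  unfold sh
  refine (abs_sum_le_sum_abs _ _).trans ?_
  have h1 : ∀ n ∈ Icc 1 N, |G n * (lamI ((n : ℤ) + y) - lamzI z ((n : ℤ) + y))| ≤ Kc * (3 * L) := by
    intro n hn
    rw [abs_mul]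
    apply mul_le_mul (hG n hn) _ (abs_nonneg _) hKc
    rw [mem_Icc] at hn
    have h2 := lamI_nonneg ((n : ℤ) + y)
    have h3 := lamzI_nonneg z ((n : ℤ) + y)
    have h4 := (lamzI_le z ((n : ℤ) + y)).trans hV
    have h5 : lamI ((n : ℤ) + y) ≤ 2 * L := by
      refine (lamI_le _ (((A * N : ℕ)) : ℝ) ?_ ?_).trans hLA
      · exact_mod_cast Nat.mul_pos (by omega) (by omega)
      · have h6 : (n : ℤ) + y ≤ ((A * N : ℕ) : ℤ) := by
          push_cast
          have : (n : ℤ) ≤ N := by exact_mod_cast hn.2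
          linarith
        exact_mod_cast h6
    rw [abs_le]
    constructor <;> linarith
  refine (sum_le_sum h1).trans (le_of_eq ?_)
  rw [sum_const, Nat.card_Icc, Nat.add_sub_cancel, nsmul_eq_mul]
  ring

open Classical in
/-- **The one shift estimate for the palindromes in base `b`.** -/
theorem one_pal (b : ℕ) (hb : 2 ≤ b) (κ : ℕ) (hκ : 1 ≤ κ) (B W : ℕ) :
    Pool.Agent.TH890.OneShift (IsP b) κ B W := by
  obtain ⟨e, he⟩ : ∃ e, e = 1 + B + 3 * κ := ⟨_, rfl⟩
  obtain ⟨e0, he0⟩ : ∃ e0, e0 = 2 * (W + 2) + e := ⟨_, rfl⟩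
  have hη : (0 : ℝ) < 1 / (b : ℝ) ^ 2 := by
    have : (0 : ℝ) < b := by exact_mod_cast (by omega : 0 < b)
    positivity
  have hκz : (κ : ℤ) ≠ 0 := by exact_mod_cast (by omega : κ ≠ 0)
  obtain ⟨V, hV⟩ := one_scale b (FF0 b κ) hb (FF0_pos b κ hκz) (b ^ (e + 1)) (W + 1)
  obtain ⟨D0, hD0⟩ := mir_law' b hb _ hη κ e0 0 V
  obtain ⟨D1, hD1⟩ := mir_law' b hb _ hη κ e0 1 V
  obtain ⟨B0, hB0⟩ := hV D0
  obtain ⟨B1, hB1⟩ := hV D1
  refine ⟨b ^ (e + 1), B0 + B1, 8 * b, by positivity, fun E => ?_⟩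
  obtain ⟨n0, h0⟩ := hB0 E
  obtain ⟨n1, h1⟩ := hB1 E
  obtain ⟨n3, h3⟩ := Vz_inv_small E
  obtain ⟨n4, h4⟩ := ev_L' (2 + Real.log (b ^ (e + 1) : ℕ) + 48 * Real.log b ^ (W + 2))
  obtain ⟨n5, h5⟩ := ev_log' W 2
  obtain ⟨n6, h6⟩ := room b hb (2 * (W + 2)) (4 + e)
  refine ⟨n0 + n1 + n3 + n4 + n5 + b ^ (n6 + 2) + 3, fun N hN cc hcc => ?_⟩
  have hbr : (2 : ℝ) ≤ b := by exact_mod_cast hb
  have hb0 : (0 : ℝ) < b := by linarith
  have hlogb : 0 < Real.log b := Real.log_pos (by linarith)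
  obtain ⟨k, hk⟩ : ∃ k, k = Nat.log b N + 1 := ⟨_, rfl⟩
  have hN1 : b ^ (k - 1) ≤ N := by rw [hk]; exact Nat.pow_log_le_self b (by omega)
  have hN2 : N < b ^ k := by rw [hk]; exact Nat.lt_pow_succ_log_self (by omega) N
  have hkn : n6 + 2 ≤ k := by
    have : b ^ (n6 + 2) < b ^ k := by omega
    exact ((Nat.pow_lt_pow_iff_right (by omega)).1 this).le
  obtain ⟨K, hK⟩ : ∃ K, K = k + e := ⟨_, rfl⟩
  have hroom := h6 K (by omega)
  obtain ⟨Lg, hLg⟩ : ∃ Lg, Lg = Nat.log b K + 1 := ⟨_, rfl⟩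
  rw [← hLg] at hroom
  obtain ⟨R, hR⟩ : ∃ R, R = (W + 2) * Lg := ⟨_, rfl⟩
  have hR2 : 2 * (W + 2) * Lg = 2 * R := by rw [hR]; ring
  rw [hR2] at hroom
  have hNK : N ≤ b ^ K := hN2.le.trans (Nat.pow_le_pow_right (by omega) (by omega))
  have hKN : b ^ K ≤ b ^ (e + 1) * N := by
    have : K = (e + 1) + (k - 1) := by omega
    rw [this, pow_add]
    exact Nat.mul_le_mul_left _ hN1
  obtain ⟨L, hLd⟩ : ∃ L, L = Real.log (N : ℝ) := ⟨_, rfl⟩
  have hNr : (1 : ℝ) ≤ N := by exact_mod_cast (by omega : 1 ≤ N)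
  have hbe1 : 1 ≤ b ^ (e + 1) := Nat.one_le_pow _ _ (by omega)
  have hlogA : 0 ≤ Real.log ((b ^ (e + 1) : ℕ) : ℝ) := Real.log_nonneg (by exact_mod_cast hbe1)
  have hLbig := h4 N (by omega)
  rw [← hLd] at hLbig
  have hx1 : 0 ≤ 48 * Real.log b ^ (W + 2) := by positivity
  have hL2 : 2 ≤ L := by linarith
  have hL0 : 0 < L := by linarith
  -- the number of palindromes
  have hk2 : 2 ≤ k := by omega
  have hc1 : ((PB b k).card : ℝ) ≤ 4 * (b : ℝ) ^ ((k + 1) / 2) := by exact_mod_cast PB_le b hb k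
  have hc2 : (b : ℝ) ^ ((k + 1) / 2) ≤ 2 * ((PB b k).card : ℝ) := by
    have h7 := pals_ge b k hb hk2
    have h8 := card_PB_succ b (k - 1) hb
    rw [show k - 1 + 1 = k by omega] at h8
    exact_mod_cast h7.trans (by omega)
  have hcpos : (0 : ℝ) < ((PB b k).card : ℝ) := by
    have : (0 : ℝ) < (b : ℝ) ^ ((k + 1) / 2) := by positivity
    linarith
  obtain ⟨M, hM⟩ : ∃ M : ℝ, M = ((PB b k).card : ℝ) := ⟨_, rfl⟩
  rw [← hM] at hc1 hc2 hcpos
  refine ⟨PB b k, fun _ => 1 / M, fun _ _ => by positivity, ?_, ?_, ?_, ?_, ?_⟩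
  · rw [sum_const, nsmul_eq_mul, ← hM, mul_one_div, div_self hcpos.ne']
  · intro v _
    rw [← hLd]
    apply one_div_le_one_div_of_le (by positivity)
    have h7 := h5 N (by omega)
    rw [← hLd] at h7
    have h8 : √(N : ℝ) ≤ (b : ℝ) ^ ((k + 1) / 2) := by
      apply Real.sqrt_le_iff.2
      refine ⟨by positivity, ?_⟩
      rw [← pow_mul]
      calc (N : ℝ) ≤ (b : ℝ) ^ k := by exact_mod_cast hN2.le
        _ ≤ _ := pow_le_pow_right₀ (by linarith) (by omega)
    linarith
  · intro v hv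
    unfold PB at hv
    rw [mem_filter, mem_range] at hv
    have h7 : b ^ k ≤ b * N := by
      have : k = 1 + (k - 1) := by omega
      rw [this, pow_add, pow_one]
      exact Nat.mul_le_mul_left _ hN1
    have h8 : B + κ ≤ b ^ e := by
      have := (Nat.lt_pow_self (by omega : 1 < b) (n := e)).le
      omega
    calc cc + κ * v ≤ B * N + κ * (b * N) := add_le_add hcc (Nat.mul_le_mul_left _ (by omega))
      _ ≤ B * (b * N) + κ * (b * N) := by
          apply Nat.add_le_add_right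
          apply Nat.mul_le_mul_left
          exact Nat.le_mul_of_pos_left _ (by omega)
      _ = (B + κ) * (b * N) := by ring
      _ ≤ b ^ e * (b * N) := Nat.mul_le_mul_right _ h8
      _ = b ^ (e + 1) * N := by ring
  · intro v hv hP
    refine ⟨?_, ?_⟩
    · unfold PB
      rw [mem_filter, mem_range]
      exact ⟨hv.trans hN2, hP⟩
    · have h7 : (Pals b (k - 1)).card ≤ ((range N).filter (fun v => IsP b v)).card := by
        apply card_le_card
        intro u hu
        rw [mem_pals b (k - 1) u hb (by omega)] at hu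
        have h8 := hu.1
        unfold PB at h8
        rw [mem_filter, mem_range] at h8
        rw [mem_filter, mem_range]
        exact ⟨by omega, h8.2⟩
      have h9 : (b : ℝ) ^ (k / 2) ≤ 2 * (((range N).filter (fun v => IsP b v)).card : ℝ) := by
        have h10 := pals_ge b (k - 1) hb (by omega)
        rw [show (k - 1 + 1) / 2 = k / 2 by omega] at h10
        exact_mod_cast h10.trans (by omega)
      have h11 : (b : ℝ) ^ ((k + 1) / 2) ≤ b * (b : ℝ) ^ (k / 2) := by
        rw [← pow_succ']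
        exact pow_le_pow_right₀ (by linarith) (by omega)
      rw [mul_one_div, le_div_iff₀ hcpos, one_mul]
      calc M ≤ 4 * (b : ℝ) ^ ((k + 1) / 2) := hc1
        _ ≤ 4 * (b * (b : ℝ) ^ (k / 2)) := by linarith
        _ ≤ 4 * (b * (2 * (((range N).filter (fun v => IsP b v)).card : ℝ))) := by
            apply mul_le_mul_of_nonneg_left _ (by norm_num)
            exact mul_le_mul_of_nonneg_left h9 hb0.le
        _ = _ := by ring
  · intro z hz1 hz2 Kc hKc G hG
    rw [← hLd] at hz1 hz2 ⊢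
    have hz1' : ∀ B', B' ≤ B0 + B1 → L ^ B' ≤ z := fun B' hB' =>
      (pow_le_pow_right₀ (by linarith) hB').trans hz1
    have hzn : 1 ≤ z := by
      have : (1 : ℝ) ≤ z := (one_le_pow₀ (by linarith)).trans hz1
      exact_mod_cast this
    have hV := h3 N (by omega) z hzn (by rw [← hLd]; exact hz2)
    rw [← hLd] at hV
    obtain ⟨φ, hφ⟩ : ∃ φ : ℕ → ℝ, φ = fun v => sh N z G ((cc + κ * v : ℕ) : ℤ) := ⟨_, rfl⟩
    have hφ0 : ∀ v, 0 ≤ φ v := fun v => by rw [hφ]; exact sh_nonneg _ _ _ _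
    have hgoal : ∑ v ∈ PB b k, 1 / M * |∑ n ∈ Icc 1 N, G n * (lamI ((n : ℤ) + ((cc + κ * v : ℕ) : ℤ)) -
        lamzI z ((n : ℤ) + ((cc + κ * v : ℕ) : ℤ)))| = 1 / M * ∑ v ∈ PB b k, φ v := by
      rw [mul_sum, hφ]
      rfl
    rw [hgoal]
    -- long palindromes
    obtain ⟨δ, hδ⟩ : ∃ δ, δ = Kc * (N / L ^ (W + 1)) := ⟨_, rfl⟩
    have hδ0 : 0 ≤ δ := by rw [hδ]; positivity
    have hlong : ∀ j, k - 2 * R < j → j ≤ k → ∑ v ∈ Pals b j, φ v ≤ (Pals b j).card * δ := by
      intro j hj1 hj2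
      obtain ⟨m, hm⟩ : ∃ m, m = j / 2 := ⟨_, rfl⟩
      obtain ⟨s, hs⟩ : ∃ s, s = j % 2 := ⟨_, rfl⟩
      have hj : j = 2 * m + s := by omega
      have hjk : 2 ≤ j := by omega
      rw [hj]
      apply pals_sum_le b m s hb (by omega) (by omega) φ hφ0 δ hδ0
      intro z' hz'
      have hYb : ∀ g ∈ Gs b m, -((b ^ K : ℕ) : ℤ) < (((cc + κ * (s * z' * b ^ m) : ℕ) : ℤ)) + (κ : ℤ) * (val b (2 * m + s) g : ℕ) ∧
          (N : ℤ) + ((((cc + κ * (s * z' * b ^ m) : ℕ) : ℤ)) + (κ : ℤ) * (val b (2 * m + s) g : ℕ)) ≤ ((b ^ K : ℕ) : ℤ) := by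
        intro g hg
        have hv := val_lt b m s (by omega) g hg
        constructor
        · have : (0 : ℤ) < ((b ^ K : ℕ) : ℤ) := by positivity
          have h8 : (0 : ℤ) ≤ (((cc + κ * (s * z' * b ^ m) : ℕ) : ℤ)) + (κ : ℤ) * (val b (2 * m + s) g : ℕ) := by positivity
          linarith
        · have h8 : s * z' * b ^ m ≤ b ^ (2 * m + s) := by
            have h0 : s = 0 ∨ s = 1 := by omega
            rcases h0 with h | h
            · rw [h]; simp
            · rw [h]
              calc 1 * z' * b ^ m = z' * b ^ m := by ring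
                _ ≤ b * b ^ m := Nat.mul_le_mul_right _ hz'.le
                _ = b ^ (m + 1) := by ring
                _ ≤ _ := Nat.pow_le_pow_right (by omega) (by omega)
          have h9 : b ^ (2 * m + s) ≤ b ^ k := Nat.pow_le_pow_right (by omega) (by omega)
          have h10 : N + ((cc + κ * (s * z' * b ^ m)) + κ * val b (2 * m + s) g) ≤ b ^ K := by
            calc N + ((cc + κ * (s * z' * b ^ m)) + κ * val b (2 * m + s) g)
                ≤ b ^ k + ((B * b ^ k + κ * b ^ k) + κ * (2 * b ^ k)) := by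
                  apply add_le_add hN2.le
                  apply add_le_add
                  · apply add_le_add (hcc.trans (Nat.mul_le_mul_left _ hN2.le))
                    exact Nat.mul_le_mul_left _ (h8.trans h9)
                  · apply Nat.mul_le_mul_left
                    omega
              _ = e * b ^ k := by rw [he]; ring
              _ ≤ b ^ e * b ^ k := Nat.mul_le_mul_right _ (Nat.lt_pow_self (by omega)).le
              _ = b ^ K := by rw [hK, ← pow_add, add_comm]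
          exact_mod_cast h10
      have hconv : ∑ g ∈ Gs b m, pw (w0 b) g * φ (val b (2 * m + s) g + s * z' * b ^ m) =
          ∑ g ∈ Gs b m, pw (w0 b) g * |∑ n ∈ Icc 1 N, G n *
            (lamI ((n : ℤ) + ((((cc + κ * (s * z' * b ^ m) : ℕ) : ℤ)) + (κ : ℤ) * (val b (2 * m + s) g : ℕ))) -
              lamzI z ((n : ℤ) + ((((cc + κ * (s * z' * b ^ m) : ℕ) : ℤ)) + (κ : ℤ) * (val b (2 * m + s) g : ℕ))))| := by
        apply sum_congr rfl
        intro g _
        rw [hφ]
        simp only [sh]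
        have h11 : ((cc + κ * (val b (2 * m + s) g + s * z' * b ^ m) : ℕ) : ℤ) =
            (((cc + κ * (s * z' * b ^ m) : ℕ) : ℤ)) + (κ : ℤ) * (val b (2 * m + s) g : ℕ) := by
          push_cast
          ring
        rw [h11]
      rw [hconv, hδ]
      have hmirr := w0_mirr b m hb
      have hsum := pw_sum hmirr
      have hKe : ∃ e', e' ≤ e0 * Lg ∧ K = 2 * m + s + e' := by
        refine ⟨K - j, ?_, by omega⟩
        have h12 : e0 * Lg = 2 * R + e * Lg := by rw [he0, ← hR2]; ring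
        have h13 : e ≤ e * Lg := Nat.le_mul_of_pos_right _ (by omega)
        omega
      obtain ⟨e', he'1, he'2⟩ := hKe
      have h0s : s = 0 ∨ s = 1 := by omega
      rcases h0s with h | h
      · subst h
        refine le_trans ?_ (le_of_eq (by rw [hLd]))
        exact h0 N (by omega) K hNK hKN z (by rw [← hLd]; exact hz1' _ (by omega)) (by rw [← hLd]; exact hz2)
          _ (Gs b m) (pw (w0 b)) _ (hD0 e' m K (by rw [← hLg]; exact he'1) he'2 (by omega) _ hmirr _) hsum hYb Kc hKc G hG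
      · subst h
        refine le_trans ?_ (le_of_eq (by rw [hLd]))
        exact h1 N (by omega) K hNK hKN z (by rw [← hLd]; exact hz1' _ (by omega)) (by rw [← hLd]; exact hz2)
          _ (Gs b m) (pw (w0 b)) _ (hD1 e' m K (by rw [← hLg]; exact he'1) he'2 (by omega) _ hmirr _) hsum hYb Kc hKc G hG
    -- the total
    have htot : ∀ r, r ≤ 2 * R → ∑ v ∈ PB b (k - 2 * R + r), φ v ≤
        ∑ v ∈ PB b (k - 2 * R), φ v + (((PB b (k - 2 * R + r)).card : ℝ) - (PB b (k - 2 * R)).card) * δ := by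
      intro r
      induction r with
      | zero => intro _; simp
      | succ r ih =>
        intro hr
        have h7 := ih (by omega)
        rw [show k - 2 * R + (r + 1) = k - 2 * R + r + 1 by ring, PB_succ b _ hb, card_PB_succ b _ hb]
        have h8 := hlong (k - 2 * R + r + 1) (by omega) (by omega)
        push_cast
        have h9 : ((((PB b (k - 2 * R + r)).card : ℝ) + (Pals b (k - 2 * R + r + 1)).card) - (PB b (k - 2 * R)).card) * δ =
            (((PB b (k - 2 * R + r)).card : ℝ) - (PB b (k - 2 * R)).card) * δ + (Pals b (k - 2 * R + r + 1)).card * δ := by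
          ring
        rw [h9]
        linarith
    have h7 := htot (2 * R) le_rfl
    rw [show k - 2 * R + 2 * R = k by omega, ← hM] at h7
    -- short palindromes
    have hshort : ∑ v ∈ PB b (k - 2 * R), φ v ≤ (PB b (k - 2 * R)).card * (3 * Kc * N * L) := by
      rw [← nsmul_eq_mul]
      apply sum_le_card_nsmul
      intro v hv
      rw [hφ]
      unfold PB at hv
      rw [mem_filter, mem_range] at hv
      have hv2 : v < b ^ k := lt_of_lt_of_le hv.1 (Nat.pow_le_pow_right (by omega) (by omega))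
      apply sh_le N z (b ^ (e + 1)) G Kc hKc.le hG _ L (by omega) _ hbe1 _ hV hL0.le
      · have h8 : N + (cc + κ * v) ≤ b ^ (e + 1) * N := by
          have h9 : b ^ k ≤ b * N := by
            have : k = 1 + (k - 1) := by omega
            rw [this, pow_add, pow_one]
            exact Nat.mul_le_mul_left _ hN1
          have h10 : 1 + B + κ ≤ b ^ e := by
            have := (Nat.lt_pow_self (by omega : 1 < b) (n := e)).le
            omega
          calc N + (cc + κ * v) ≤ b * N + (B * (b * N) + κ * (b * N)) := by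
                apply add_le_add (Nat.le_mul_of_pos_left _ (by omega))
                apply add_le_add (hcc.trans (Nat.mul_le_mul_left _ (Nat.le_mul_of_pos_left _ (by omega))))
                exact Nat.mul_le_mul_left _ (by omega)
            _ = (1 + B + κ) * (b * N) := by ring
            _ ≤ b ^ e * (b * N) := Nat.mul_le_mul_right _ h10
            _ = b ^ (e + 1) * N := by ring
        exact_mod_cast h8
      · rw [Nat.cast_mul, Real.log_mul (by positivity) (by positivity), ← hLd]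
        linarith
    -- comparison
    have hKL : L ≤ K * Real.log b := by
      rw [hLd]
      calc Real.log N ≤ Real.log ((b : ℝ) ^ K) := Real.log_le_log (by linarith) (by exact_mod_cast hNK)
        _ = _ := by rw [Real.log_pow]
    have hKR : (K : ℝ) ^ (W + 2) ≤ (b : ℝ) ^ R := by
      have h8 : (K : ℝ) ≤ (b : ℝ) ^ Lg := by
        have := Nat.lt_pow_succ_log_self (b := b) (by omega) K
        rw [hLg]
        exact_mod_cast this.le
      calc (K : ℝ) ^ (W + 2) ≤ ((b : ℝ) ^ Lg) ^ (W + 2) := pow_le_pow_left₀ (Nat.cast_nonneg _) h8 _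
        _ = (b : ℝ) ^ R := by rw [← pow_mul, hR, mul_comm]
    have hbR : 48 * L ^ (W + 1) ≤ (b : ℝ) ^ R := by
      have h8 : L ^ (W + 2) ≤ (K : ℝ) ^ (W + 2) * Real.log b ^ (W + 2) := by
        rw [← mul_pow]
        exact pow_le_pow_left₀ hL0.le hKL _
      have h9 : Real.log b ^ (W + 2) * (48 * L ^ (W + 1)) ≤ Real.log b ^ (W + 2) * (K : ℝ) ^ (W + 2) := by
        calc Real.log b ^ (W + 2) * (48 * L ^ (W + 1)) = (48 * Real.log b ^ (W + 2)) * L ^ (W + 1) := by ring
          _ ≤ L * L ^ (W + 1) := mul_le_mul_of_nonneg_right (by linarith) (by positivity)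
          _ = L ^ (W + 2) := by ring
          _ ≤ (K : ℝ) ^ (W + 2) * Real.log b ^ (W + 2) := h8
          _ = _ := by ring
      exact (le_of_mul_le_mul_left h9 (by positivity)).trans hKR
    have hsc : ((PB b (k - 2 * R)).card : ℝ) * (48 * L ^ (W + 1)) ≤ 8 * M := by
      have h8 : ((PB b (k - 2 * R)).card : ℝ) ≤ 4 * (b : ℝ) ^ ((k - 2 * R + 1) / 2) := by
        exact_mod_cast PB_le b hb (k - 2 * R)
      have h9 : (b : ℝ) ^ ((k - 2 * R + 1) / 2) * (b : ℝ) ^ R = (b : ℝ) ^ ((k + 1) / 2) := by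
        rw [← pow_add]
        congr 1
        omega
      calc ((PB b (k - 2 * R)).card : ℝ) * (48 * L ^ (W + 1)) ≤
            (4 * (b : ℝ) ^ ((k - 2 * R + 1) / 2)) * (b : ℝ) ^ R :=
            mul_le_mul h8 hbR (by positivity) (by positivity)
        _ = 4 * ((b : ℝ) ^ ((k - 2 * R + 1) / 2) * (b : ℝ) ^ R) := by ring
        _ = 4 * (b : ℝ) ^ ((k + 1) / 2) := by rw [h9]
        _ ≤ _ := by linarith
    have hfin : ∑ v ∈ PB b k, φ v ≤ M * (Kc * (N / L ^ W)) := by
      have h8 : ((PB b (k - 2 * R)).card : ℝ) * (3 * Kc * N * L) ≤ M * (Kc * (N / (2 * L ^ W))) := by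
        have h9 : ((PB b (k - 2 * R)).card : ℝ) * (3 * Kc * N * L) =
            (((PB b (k - 2 * R)).card : ℝ) * (48 * L ^ (W + 1))) * (Kc * (N / (16 * L ^ W))) := by
          rw [pow_succ L W]
          field_simp
          ring
        rw [h9]
        calc (((PB b (k - 2 * R)).card : ℝ) * (48 * L ^ (W + 1))) * (Kc * (N / (16 * L ^ W)))
            ≤ (8 * M) * (Kc * (N / (16 * L ^ W))) := mul_le_mul_of_nonneg_right hsc (by positivity)
          _ = M * (Kc * (N / (2 * L ^ W))) := by field_simp; ring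
      have h10 : (M - ((PB b (k - 2 * R)).card : ℝ)) * δ ≤ M * (Kc * (N / (2 * L ^ W))) := by
        calc (M - ((PB b (k - 2 * R)).card : ℝ)) * δ ≤ M * δ := by
              apply mul_le_mul_of_nonneg_right _ hδ0
              have : (0 : ℝ) ≤ ((PB b (k - 2 * R)).card : ℝ) := Nat.cast_nonneg _
              linarith
          _ ≤ _ := by
              apply mul_le_mul_of_nonneg_left _ hcpos.le
              rw [hδ]
              apply mul_le_mul_of_nonneg_left _ hKc.le
              apply div_le_div_of_nonneg_left (by linarith) (by positivity)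
              rw [pow_succ, mul_comm]
              exact mul_le_mul_of_nonneg_left hL2 (by positivity)
      have h11 : M * (Kc * (N / L ^ W)) = M * (Kc * (N / (2 * L ^ W))) + M * (Kc * (N / (2 * L ^ W))) := by
        field_simp
        ring
      rw [h11]
      linarith
    rw [one_div, inv_mul_le_iff₀ hcpos]
    exact hfin

end Pool.Agent.Y844.DS
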