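import Pool.Agent.Y844.DS.One
import Pool.Agent.TH872.An3

set_option autoImplicit false

/-!
# Prime tuples for vectors of shifts with rearranged digits
-/

namespace Pool.Agent.Y844.DS
open Finset
open Pool.Agent.TH872.An
open Pool.Agent.H373R2.T7
open Pool.Agent.W93.TD (HLs)

open Classical in
/-- the values of the rearrangements -/
noncomputable def vals (b : ℕ) {k : ℕ} (d : Fin k → ℕ) : Finset ℕ := univ.image (fun σ : Equiv.Perm (Fin k) => V b d σ)

open Classical in
/-- their probabilities -/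
noncomputable def prb (b : ℕ) {k : ℕ} (d : Fin k → ℕ) (v : ℕ) : ℝ :=
  ((univ.filter (fun σ : Equiv.Perm (Fin k) => V b d σ = v)).card : ℝ) / k.factorial

lemma sum_prb (b : ℕ) {k : ℕ} (d : Fin k → ℕ) (φ : ℕ → ℝ) :
    ∑ v ∈ vals b d, prb b d v * φ v = ∑ σ : Equiv.Perm (Fin k), 1 / (k.factorial : ℝ) * φ (V b d σ) := by
  classical
  have h1 : ∀ v ∈ vals b d, prb b d v * φ v =
      ∑ σ ∈ univ.filter (fun σ : Equiv.Perm (Fin k) => V b d σ = v), 1 / (k.factorial : ℝ) * φ (V b d σ) := by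
    intro v _
    unfold prb
    rw [sum_congr rfl (fun σ hσ => by rw [(mem_filter.1 hσ).2]), sum_const, nsmul_eq_mul]
    ring
  rw [sum_congr rfl h1]
  unfold vals
  rw [← sum_fiberwise_of_maps_to (s := univ) (t := univ.image (fun σ : Equiv.Perm (Fin k) => V b d σ))
    (g := fun σ => V b d σ) (fun σ _ => mem_image_of_mem _ (mem_univ σ))]

lemma prb_nonneg (b : ℕ) {k : ℕ} (d : Fin k → ℕ) (v : ℕ) : 0 ≤ prb b d v := by
  unfold prb; positivity

lemma prb_sum (b : ℕ) {k : ℕ} (d : Fin k → ℕ) : ∑ v ∈ vals b d, prb b d v = 1 := by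
  have h := sum_prb b d (fun _ => 1)
  simp only [mul_one] at h
  rw [h, sum_const, card_univ, Fintype.card_perm, Fintype.card_fin, nsmul_eq_mul, mul_one_div, div_self]
  exact_mod_cast k.factorial_ne_zero

/-- no value is taken too often -/
lemma prb_small (b : ℕ) (hb : 2 ≤ b) (η : ℝ) (hη : 0 < η) (U : ℕ) : ∃ k₀ : ℕ, ∀ k, k₀ ≤ k → ∀ d : Fin k → ℕ,
    Spread b k η d → ∀ v, prb b d v ≤ 1 / (k : ℝ) ^ U := by
  classical
  obtain ⟨τ, hτ⟩ : ∃ τ : ℕ, (max (1 - η / 2) 0) ^ τ < (1 / (b : ℝ)) ^ (U + 1) :=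
    exists_pow_lt_of_lt_one (show (0 : ℝ) < (1 / b) ^ (U + 1) by
      have : (0 : ℝ) < b := by exact_mod_cast (by omega : 0 < b)
      positivity) (max_lt (by linarith) one_pos)
  obtain ⟨τ', hτ'⟩ := exists_nat_ge (2 * (τ : ℝ) / η)
  obtain ⟨k3, hk3⟩ := Pool.Agent.TH872.Mir.room b hb (τ + τ') 2
  refine ⟨k3 + 2, fun k hk d hd v => ?_⟩
  have hk0 : 0 < k := by omega
  have hη1 := eta_le hd hk0
  have hroom := hk3 k (by omega)
  obtain ⟨T, hT⟩ : ∃ T, T = τ * (Nat.log b k + 1) := ⟨_, rfl⟩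
  have hsplit : (τ + τ') * (Nat.log b k + 1) = τ * (Nat.log b k + 1) + τ' * (Nat.log b k + 1) := by ring
  have hTk : T ≤ k := by omega
  have hT2 : (T : ℝ) ≤ η / 2 * k := by
    have e1 : ((τ' * (Nat.log b k + 1) : ℕ) : ℝ) ≤ k := by exact_mod_cast (by omega : τ' * (Nat.log b k + 1) ≤ k)
    have e2 : 2 * (τ : ℝ) ≤ τ' * η := by rwa [div_le_iff₀ hη] at hτ'
    have e4 := mul_le_mul_of_nonneg_right e2 (by positivity : (0 : ℝ) ≤ (Nat.log b k : ℝ) + 1)
    have e5 := mul_le_mul_of_nonneg_left e1 (by linarith : 0 ≤ η / 2)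
    rw [hT]
    push_cast at e4 e5 ⊢
    nlinarith
  have h := an_interval hd (by omega) hη.le hk0 T hTk hT2 (fun σ => V b d σ = v) (by
    intro σ σ' h1 h2
    have : 0 < b ^ (k - T) := by positivity
    rw [h1, h2]
    omega)
  have h1 : prb b d v = ∑ σ : Equiv.Perm (Fin k), (if V b d σ = v then 1 / (k.factorial : ℝ) else 0) := by
    unfold prb
    rw [← sum_filter, sum_const, nsmul_eq_mul, mul_one_div]
  rw [h1]
  refine h.trans ?_
  have h2 : (1 - η / 2) ^ T ≤ 1 / (k : ℝ) ^ (U + 1) := by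
    rw [hT]
    apply Pool.Agent.TH872.Mir.pow_log' b hb _ (by linarith) _ _ _ k (by omega)
    have : max (1 - η / 2) 0 = 1 - η / 2 := max_eq_left (by linarith)
    rw [this] at hτ
    exact hτ.le
  have hkr : (2 : ℝ) ≤ k := by exact_mod_cast (by omega : 2 ≤ k)
  calc 2 * (1 - η / 2) ^ T ≤ 2 * (1 / (k : ℝ) ^ (U + 1)) := mul_le_mul_of_nonneg_left h2 (by norm_num)
    _ = 2 / k * (1 / (k : ℝ) ^ U) := by
        rw [pow_succ (k : ℝ) U]
        field_simp
    _ ≤ 1 * (1 / (k : ℝ) ^ U) := by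
        apply mul_le_mul_of_nonneg_right _ (by positivity)
        rw [div_le_one (by linarith)]
        exact hkr
    _ = _ := one_mul _

/-- counting vectors of permutations -/
lemma count_vec {s : ℕ} (b k : Fin s → ℕ) (d : ∀ i, Fin (k i) → ℕ) (H : (Fin s → ℕ) → Prop) [DecidablePred H] :
    ((univ.filter (fun σ : ∀ i, Equiv.Perm (Fin (k i)) => H (fun i => V (b i) (d i) (σ i)))).card : ℝ) =
      (∏ i, ((k i).factorial : ℝ)) *
        ∑ m ∈ Fintype.piFinset (fun i => vals (b i) (d i)), (if H m then ∏ i, prb (b i) (d i) (m i) else 0) := by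
  classical
  have h1 : ∀ m : Fin s → ℕ, ∏ i, prb (b i) (d i) (m i) =
      (∏ i, ((k i).factorial : ℝ))⁻¹ * ∑ σ : ∀ i, Equiv.Perm (Fin (k i)),
        (if (fun i => V (b i) (d i) (σ i)) = m then (1 : ℝ) else 0) := by
    intro m
    have h2 : ∀ i, prb (b i) (d i) (m i) = ((k i).factorial : ℝ)⁻¹ *
        ∑ τ : Equiv.Perm (Fin (k i)), (if V (b i) (d i) τ = m i then (1 : ℝ) else 0) := by
      intro i
      unfold prb
      rw [← sum_filter, sum_const, nsmul_eq_mul, mul_one, div_eq_inv_mul]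
    rw [prod_congr rfl (fun i _ => h2 i), prod_mul_distrib, prod_inv_distrib]
    congr 1
    rw [Finset.prod_univ_sum]
    rw [Fintype.piFinset_univ]
    apply sum_congr rfl
    intro σ _
    by_cases h : (fun i => V (b i) (d i) (σ i)) = m
    · rw [if_pos h]
      apply prod_eq_one
      intro i _
      rw [if_pos (congrFun h i)]
    · rw [if_neg h]
      rw [funext_iff] at h
      push Not at h
      obtain ⟨i, hi⟩ := h
      apply prod_eq_zero (mem_univ i)
      rw [if_neg hi]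
  have hP : (∏ i, ((k i).factorial : ℝ)) ≠ 0 := by
    apply prod_ne_zero_iff.2
    intro i _
    exact_mod_cast (k i).factorial_ne_zero
  have h3 : ∑ m ∈ Fintype.piFinset (fun i => vals (b i) (d i)), (if H m then ∏ i, prb (b i) (d i) (m i) else 0) =
      (∏ i, ((k i).factorial : ℝ))⁻¹ * ∑ σ : ∀ i, Equiv.Perm (Fin (k i)),
        (if H (fun i => V (b i) (d i) (σ i)) then (1 : ℝ) else 0) := by
    calc ∑ m ∈ Fintype.piFinset (fun i => vals (b i) (d i)), (if H m then ∏ i, prb (b i) (d i) (m i) else 0)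
        = ∑ m ∈ Fintype.piFinset (fun i => vals (b i) (d i)), (∏ i, ((k i).factorial : ℝ))⁻¹ *
          ∑ σ : ∀ i, Equiv.Perm (Fin (k i)), (if H m ∧ (fun i => V (b i) (d i) (σ i)) = m then (1 : ℝ) else 0) := by
          apply sum_congr rfl
          intro m _
          split_ifs with hm
          · rw [h1 m]
            congr 1
            apply sum_congr rfl
            intro σ _
            simp only [hm, true_and]
          · simp only [hm, false_and, if_false, sum_const_zero, mul_zero]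
      _ = (∏ i, ((k i).factorial : ℝ))⁻¹ * ∑ σ : ∀ i, Equiv.Perm (Fin (k i)),
            ∑ m ∈ Fintype.piFinset (fun i => vals (b i) (d i)),
              (if H m ∧ (fun i => V (b i) (d i) (σ i)) = m then (1 : ℝ) else 0) := by
          rw [← mul_sum, sum_comm]
      _ = _ := by
          congr 1
          apply sum_congr rfl
          intro σ _
          have hmem : (fun i => V (b i) (d i) (σ i)) ∈ Fintype.piFinset (fun i => vals (b i) (d i)) := by
            rw [Fintype.mem_piFinset]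
            intro i
            unfold vals
            exact mem_image_of_mem _ (mem_univ _)
          rw [sum_eq_single_of_mem _ hmem]
          · simp only [and_true]
          · intro m _ hne
            rw [if_neg]
            rintro ⟨-, h⟩
            exact hne h.symm
  rw [h3, ← mul_assoc, mul_inv_cancel₀ hP, one_mul, ← sum_filter, sum_const, nsmul_eq_mul, mul_one]

open Classical in
/-- **Prime tuples for vectors of shifts with rearranged digits.** -/
theorem perm_tuples (s : ℕ) (hs : 1 ≤ s) (b : Fin s → ℕ) (hb : ∀ i, 2 ≤ b i) (κ : Fin s → ℕ) (hκ : ∀ i, 1 ≤ κ i)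
    (B U : ℕ) (η ε : ℝ) (hη : 0 < η) (hε : 0 < ε) : ∃ N₀ : ℕ, ∀ N, N₀ ≤ N → ∀ k : Fin s → ℕ,
    (∀ i, N ≤ B * b i ^ k i ∧ b i ^ k i ≤ B * N) → ∀ d : ∀ i, Fin (k i) → ℕ, (∀ i, Spread (b i) (k i) η (d i)) →
    ∀ c : Fin s → ℕ, (∀ i, c i ≤ B * N) →
    ((univ.filter (fun σ : ∀ i, Equiv.Perm (Fin (k i)) =>
      ¬ HLs ε U N (fun i => c i + κ i * V (b i) (d i) (σ i)))).card : ℝ) ≤
      (∏ i, ((k i).factorial : ℝ)) / Real.log N ^ U := by
  obtain ⟨W, hW⟩ : ∃ W, W = 2 * U + 6 + s + 2 := ⟨_, rfl⟩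
  obtain ⟨e, he⟩ : ∃ e : Fin s → ℕ, e = fun i => B + B * B + κ i := ⟨_, rfl⟩
  choose Vv hV using fun i => one_scale (b i) (FA (b i) (κ i)) (hb i)
    (FA_pos (b i) (hb i) (κ i) (by exact_mod_cast (by have := hκ i; omega : κ i ≠ 0))) (b i ^ e i * B) W
  choose D K1 hD using fun i => an_law (b i) (hb i) η hη (κ i : ℤ) (e i) (Vv i)
  choose B0 hB0 using fun i => hV i (D i)
  obtain ⟨Bt, hBt⟩ : ∃ Bt, Bt = ∑ i, B0 i := ⟨_, rfl⟩
  have hBi : ∀ i, B0 i ≤ Bt := fun i => by rw [hBt]; exact single_le_sum (fun _ _ => Nat.zero_le _) (mem_univ i)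
  choose N1 hN1 using fun i => hB0 i (Bt + U + s + 6)
  choose k2 hk2 using fun i => prb_small (b i) (hb i) η hη (W + 1)
  obtain ⟨At, hAt⟩ : ∃ At, At = ∑ i, (b i ^ e i * B) := ⟨_, rfl⟩
  have hAi : ∀ i, b i ^ e i * B ≤ At := fun i => by
    rw [hAt]; exact single_le_sum (f := fun i => b i ^ e i * B) (fun _ _ => Nat.zero_le _) (mem_univ i)
  obtain ⟨n0, h0⟩ := os_prob s hs At Bt U ε hε
  obtain ⟨lb, hlb⟩ : ∃ lb : Fin s → ℕ, ∀ i, (2 * Real.log (b i)) ^ W ≤ lb i :=
    ⟨fun i => ⌈(2 * Real.log (b i)) ^ W⌉₊, fun i => Nat.le_ceil _⟩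
  obtain ⟨kt, hkt⟩ : ∃ kt : ℕ, kt = ∑ i, (K1 i + k2 i + lb i + B + 1) := ⟨_, rfl⟩
  have hki : ∀ i, K1 i + k2 i + lb i + B + 1 ≤ kt := fun i => by
    rw [hkt]; exact single_le_sum (f := fun i => K1 i + k2 i + lb i + B + 1) (fun _ _ => Nat.zero_le _) (mem_univ i)
  obtain ⟨bt, hbt⟩ : ∃ bt : ℕ, bt = ∑ i, b i := ⟨_, rfl⟩
  have hbi : ∀ i, b i ≤ bt := fun i => by rw [hbt]; exact single_le_sum (fun _ _ => Nat.zero_le _) (mem_univ i)
  obtain ⟨Nt, hNt⟩ : ∃ Nt, Nt = ∑ i, N1 i := ⟨_, rfl⟩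
  have hNi : ∀ i, N1 i ≤ Nt := fun i => by rw [hNt]; exact single_le_sum (fun _ _ => Nat.zero_le _) (mem_univ i)
  refine ⟨n0 + Nt + B * bt ^ kt + 3, fun N hN k hk d hd c hc => ?_⟩
  have hkk : ∀ i, kt ≤ k i := by
    intro i
    by_contra hcon
    push Not at hcon
    have h1 : B * b i ^ k i ≤ B * bt ^ kt := by
      apply Nat.mul_le_mul_left
      calc b i ^ k i ≤ b i ^ kt := Nat.pow_le_pow_right (by have := hb i; omega) hcon.le
        _ ≤ bt ^ kt := Nat.pow_le_pow_left (hbi i) _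
    have := (hk i).1
    omega
  have hcount := count_vec b k d (fun m => ¬ HLs ε U N (fun i => c i + κ i * m i))
  rw [hcount, div_eq_mul_one_div]
  apply mul_le_mul_of_nonneg_left _ (prod_nonneg fun i _ => Nat.cast_nonneg _)
  have hlogN : 0 < Real.log N := Real.log_pos (by exact_mod_cast (by omega : 1 < N))
  have hNr : (1 : ℝ) ≤ N := by exact_mod_cast (by omega : 1 ≤ N)
  have hbig : ∀ i, N ≤ b i ^ (k i + e i) ∧ b i ^ (k i + e i) ≤ b i ^ e i * B * N ∧
      (∀ v, v ≤ b i ^ k i → N + (c i + κ i * v) ≤ b i ^ (k i + e i)) := by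
    intro i
    obtain ⟨q1, q2⟩ := hk i
    have hbe : B + B * B + κ i ≤ b i ^ e i := by
      rw [he]
      exact (Nat.lt_pow_self (by have := hb i; omega)).le
    have hlast : ∀ v, v ≤ b i ^ k i → N + (c i + κ i * v) ≤ b i ^ (k i + e i) := by
      intro v hv
      calc N + (c i + κ i * v) ≤ B * b i ^ k i + (B * (B * b i ^ k i) + κ i * b i ^ k i) := by
            apply add_le_add q1
            exact add_le_add ((hc i).trans (Nat.mul_le_mul_left _ q1)) (Nat.mul_le_mul_left _ hv)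
        _ = (B + B * B + κ i) * b i ^ k i := by ring
        _ ≤ b i ^ e i * b i ^ k i := Nat.mul_le_mul_right _ hbe
        _ = _ := by rw [← pow_add, add_comm]
    refine ⟨?_, ?_, hlast⟩
    · exact (Nat.le_add_right _ _).trans (hlast 0 (Nat.zero_le _))
    · rw [add_comm, pow_add, mul_assoc]
      exact Nat.mul_le_mul_left _ q2
  refine h0 N (by omega) κ c hκ (fun i => vals (b i) (d i)) (fun i => prb (b i) (d i))
    (fun i v _ => prb_nonneg _ _ _) (fun i => prb_sum _ _) ?_ ?_ ?_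
  · intro i v _
    rw [← hW]
    refine (hk2 i (k i) (by have := hki i; have := hkk i; omega) (d i) (hd i) v).trans ?_
    have hkr : (1 : ℝ) ≤ k i := by exact_mod_cast (by have := hki i; have := hkk i; omega : 1 ≤ k i)
    apply one_div_le_one_div_of_le (by positivity)
    -- `log N ≤ 2 k log b`
    have hbr : (2 : ℝ) ≤ b i := by exact_mod_cast hb i
    have hlogb : 0 < Real.log (b i) := Real.log_pos (by linarith)
    have h2 : Real.log N ≤ k i * (2 * Real.log (b i)) := by
      have h3 : (N : ℝ) ≤ (b i : ℝ) ^ (2 * k i) := by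
        have h4 : N ≤ b i ^ (2 * k i) := by
          have h5 : B ≤ b i ^ k i := by
            have h6 : B ≤ k i := by have := hki i; have := hkk i; omega
            exact h6.trans (Nat.lt_pow_self (by have := hb i; omega)).le
          calc N ≤ B * b i ^ k i := (hk i).1
            _ ≤ b i ^ k i * b i ^ k i := Nat.mul_le_mul_right _ h5
            _ = _ := by rw [← pow_add]; congr 1; ring
        exact_mod_cast h4
      calc Real.log N ≤ Real.log ((b i : ℝ) ^ (2 * k i)) := Real.log_le_log (by linarith) h3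
        _ = _ := by rw [Real.log_pow]; push_cast; ring
    calc Real.log N ^ W ≤ (k i * (2 * Real.log (b i))) ^ W := pow_le_pow_left₀ hlogN.le h2 W
      _ = (k i : ℝ) ^ W * (2 * Real.log (b i)) ^ W := mul_pow _ _ _
      _ ≤ (k i : ℝ) ^ W * k i := by
          apply mul_le_mul_of_nonneg_left _ (by positivity)
          refine (hlb i).trans ?_
          exact_mod_cast (by have := hki i; have := hkk i; omega : lb i ≤ k i)
      _ = _ := by ring
  · intro i v hv
    unfold vals at hv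
    rw [mem_image] at hv
    obtain ⟨σ, -, rfl⟩ := hv
    have h1 := (hbig i).2.2 _ (V_lt (hd i) (by have := hb i; omega) σ).le
    have h2 := (hbig i).2.1
    have h3 : b i ^ e i * B * N ≤ At * N := Nat.mul_le_mul_right _ (hAi i)
    omega
  · intro i z hz1 hz2 Kc hKc G hG
    rw [sum_prb (b i) (d i) (fun v => |∑ n ∈ Icc 1 N, G n * (lamI ((n : ℤ) + ((c i + κ i * v : ℕ) : ℤ)) -
        lamzI z ((n : ℤ) + ((c i + κ i * v : ℕ) : ℤ)))|), ← hW]
    have hz1' : Real.log N ^ B0 i ≤ z := by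
      refine le_trans (pow_le_pow_right₀ ?_ (hBi i)) hz1
      rw [Real.le_log_iff_exp_le (by linarith)]
      have : (3 : ℝ) ≤ N := by exact_mod_cast (by omega : 3 ≤ N)
      linarith [Real.exp_one_lt_d9]
    have h1 := hN1 i N (by have := hNi i; omega) (k i + e i) (hbig i).1 (hbig i).2.1 z hz1' hz2
      _ univ (fun _ => 1 / ((k i).factorial : ℝ)) (fun σ => ((c i : ℕ) : ℤ) + (κ i : ℤ) * (V (b i) (d i) σ : ℕ))
      (hD i (k i) (k i + e i) rfl (by have := hki i; have := hkk i; omega) (d i) (hd i) _) (by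
        rw [sum_const, card_univ, Fintype.card_perm, Fintype.card_fin, nsmul_eq_mul, mul_one_div, div_self]
        exact_mod_cast (k i).factorial_ne_zero) (by
        intro σ _
        constructor
        · have h2 : (0 : ℤ) < ((b i ^ (k i + e i) : ℕ) : ℤ) := by
            exact_mod_cast Nat.pow_pos (by have := hb i; omega)
          have h3 : (0 : ℤ) ≤ ((c i : ℕ) : ℤ) + (κ i : ℤ) * (V (b i) (d i) σ : ℕ) := by positivity
          linarith
        · exact_mod_cast (hbig i).2.2 _ (V_lt (hd i) (by have := hb i; omega) σ).le) Kc hKc G hG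
    refine le_trans (le_of_eq ?_) h1
    apply sum_congr rfl
    intro σ _
    push_cast
    rfl

end Pool.Agent.Y844.DS
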