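import Pool.Agent.TH872.Transfer

set_option autoImplicit false

/-! Random integers with mirror-dependent digits and palindromes: the passage from laws to statements about them, if
the statement about the law is known for one value of the parameter (the proof follows
`Pool.Agent.TH872.Transfer`). -/

namespace Pool.Agent.Y844.DS
open Finset
open Pool.Agent.TH872.Mir
open Pool.Agent.TH872.Tr

/-- what has to be proved about the laws -/
def RareE (b B U : ℕ) (κ : ℤ) (η : ℝ) (Adm : ℕ → (ℤ → Prop) → Prop) : Prop :=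
  ∀ s : ℕ, s ≤ 1 → ∃ m₀ : ℕ, ∀ m, m₀ ≤ m → ∀ w : ℕ → ℕ × ℕ → ℝ, Mirr b m η w → ∀ cc : ℤ,
    |cc| + |κ| * (2 * (b : ℤ) ^ (2 * m + s)) ≤ (b : ℤ) ^ (2 * m + s + (B + 3 * κ.natAbs)) →
    ∀ bad : ℤ → Prop, Adm (2 * m + s) bad → ∀ E : (Fin m → ℕ × ℕ) → Prop, [DecidablePred E] →
    (∀ g ∈ Gs b m, E g → bad (cc + κ * (val b (2 * m + s) g : ℕ))) →
    ∑ g ∈ Gs b m, (if E g then pw w g else 0) ≤ 1 / ((2 * m + s : ℕ) : ℝ) ^ U

theorem transfer1 (b B U : ℕ) (hb : 2 ≤ b) (κ : ℤ) (Adm : ℕ → (ℤ → Prop) → Prop) (η : ℝ) (hη2 : η ≤ 1 / (b : ℝ) ^ 2)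
    (H : RareE b B U κ η Adm) :
    ∃ k₀ : ℕ, ∀ k : ℕ, k₀ ≤ k → ∀ c : ℤ, |c| ≤ B * (b : ℤ) ^ k → ∀ bad : ℤ → Prop, Adm k bad →
      (∀ (w : ℕ → ℕ × ℕ → ℝ) (u : ℕ → ℝ), Pairs b k η w → (∀ a, 0 ≤ u a) → ∑ a ∈ range b, u a = 1 →
        Prob b k w u (fun d z => bad (value b k κ c d z)) ≤ 1 / (k : ℝ) ^ U) ∧
      (num b k (fun v => bad (c + κ * v)) : ℝ) ≤ num b k (fun _ => True) / (k : ℝ) ^ U := by
  classical
  have hmain : ∀ s : ℕ, s ≤ 1 → ∃ m₀ : ℕ, ∀ m, m₀ ≤ m → ∀ w : ℕ → ℕ × ℕ → ℝ, Mirr b m η w →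
      ∀ c : ℤ, |c| ≤ B * (b : ℤ) ^ (2 * m + s) → ∀ bad : ℤ → Prop, Adm (2 * m + s) bad → ∀ z < b,
      ∑ g ∈ Gs b m, (if bad (c + κ * ((val b (2 * m + s) g + s * z * b ^ m : ℕ) : ℤ))
        then pw w g else 0) ≤ 1 / ((2 * m + s : ℕ) : ℝ) ^ U := by
    intro s hs
    obtain ⟨m₀, h0⟩ := H s hs
    refine ⟨m₀, fun m hm w hw c hc bad hbad z hz => ?_⟩
    have hcc := cc_bound b B m s hb hs κ c hc z hz
    have hval : ∀ g : Fin m → ℕ × ℕ, c + κ * ((val b (2 * m + s) g + s * z * b ^ m : ℕ) : ℤ) =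
        (c + κ * ((s * z * b ^ m : ℕ) : ℤ)) + κ * ((val b (2 * m + s) g : ℕ) : ℤ) := by
      intro g
      push_cast
      ring
    simp only [hval]
    exact h0 m hm w hw _ hcc bad hbad _ (fun g _ hg => hg)
  obtain ⟨m0, h0⟩ := hmain 0 (by norm_num)
  obtain ⟨m1, h1⟩ := hmain 1 le_rfl
  refine ⟨2 * (m0 + m1) + 4, fun k hk c hc bad hbad => ?_⟩
  obtain ⟨m, hm⟩ : ∃ m, m = k / 2 := ⟨_, rfl⟩
  obtain ⟨s, hs⟩ : ∃ s, s = k % 2 := ⟨_, rfl⟩
  have hs1 : s ≤ 1 := by omega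
  have hkms : k = 2 * m + s := by omega
  have hkr : (0 : ℝ) < k := by exact_mod_cast (by omega : 0 < k)
  have hg : ∀ w : ℕ → ℕ × ℕ → ℝ, Mirr b m η w → ∀ z < b,
      ∑ g ∈ Gs b m, (if bad (c + κ * ((val b (2 * m + s) g + s * z * b ^ m : ℕ) : ℤ))
        then pw w g else 0) ≤ 1 / ((2 * m + s : ℕ) : ℝ) ^ U := by
    intro w hw z hz
    have h4 : s = 0 ∨ s = 1 := by omega
    rw [hkms] at hc hbad
    rcases h4 with rfl | rfl
    · exact h0 m (by omega) w hw c hc bad hbad z hz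
    · exact h1 m (by omega) w hw c hc bad hbad z hz
  have hw0 : Mirr b m η (w0 b) := by
    have h5 := w0_mirr b m hb
    exact ⟨h5.nonneg, h5.sum, fun i hi hi' => hη2.trans (h5.mir i hi hi')⟩
  constructor
  · intro w u hw hu hu1
    have hmir : Mirr b m η w := by
      rw [hm]
      exact ⟨hw.nonneg, hw.sum, hw.differ⟩
    have hP : Prob b k w u (fun d z => bad (value b k κ c d z)) =
        ∑ z ∈ range b, u z * ∑ g ∈ Gs b m, (if bad (c + κ * ((val b (2 * m + s) g + s * z * b ^ m : ℕ) : ℤ))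
        then pw w g else 0) := by
      unfold Prob
      rw [sum_comm]
      subst hm hs
      apply sum_congr rfl
      intro z _
      rw [mul_sum]
      apply sum_congr rfl
      intro d _
      rw [← hkms]
      unfold value Pool.Agent.TH872.Mir.val pw
      split_ifs
      · ring
      · ring
    rw [hP]
    calc _ ≤ ∑ z ∈ range b, u z * (1 / ((2 * m + s : ℕ) : ℝ) ^ U) :=
          sum_le_sum fun z hz => mul_le_mul_of_nonneg_left (hg w hmir z (mem_range.1 hz)) (hu z)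
      _ = _ := by rw [← sum_mul, hu1, one_mul, hkms]
  · have h5 := pals_of_prob b m s hb (by omega) hs1
      (fun v => bad (c + κ * v)) (1 / ((2 * m + s : ℕ) : ℝ) ^ U) (by positivity) (by
        intro z hz
        exact hg _ hw0 z hz)
    have e1 : ∀ E : ℕ → Prop, num b k E = ((Pals b (2 * m + s)).filter E).card := by
      intro E
      unfold num Pals
      rw [← hkms, filter_filter]
      rfl
    rw [e1, e1, filter_true, ← hkms] at *
    rw [mul_one_div] at h5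
    exact h5



/-- the statement for all parameters -/
theorem transfer2 (b B U : ℕ) (hb : 2 ≤ b) (κ : ℤ) (Adm : ℕ → (ℤ → Prop) → Prop) (η : ℝ)
    (H : RareE b B U κ (min η (1 / (b : ℝ) ^ 2)) Adm) :
    ∃ k₀ : ℕ, ∀ k : ℕ, k₀ ≤ k → ∀ c : ℤ, |c| ≤ B * (b : ℤ) ^ k → ∀ bad : ℤ → Prop, Adm k bad →
      (∀ (w : ℕ → ℕ × ℕ → ℝ) (u : ℕ → ℝ), Pairs b k η w → (∀ a, 0 ≤ u a) → ∑ a ∈ range b, u a = 1 →
        Prob b k w u (fun d z => bad (value b k κ c d z)) ≤ 1 / (k : ℝ) ^ U) ∧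
      (num b k (fun v => bad (c + κ * v)) : ℝ) ≤ num b k (fun _ => True) / (k : ℝ) ^ U := by
  obtain ⟨k₀, h0⟩ := transfer1 b B U hb κ Adm _ (min_le_right _ _) H
  refine ⟨k₀, fun k hk c hc bad hbad => ⟨fun w u hw hu hu1 => ?_, (h0 k hk c hc bad hbad).2⟩⟩
  exact (h0 k hk c hc bad hbad).1 w u ⟨hw.nonneg, hw.sum, fun i hi hi' => (min_le_left _ _).trans (hw.differ i hi hi')⟩ hu hu1

end Pool.Agent.Y844.DS
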